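import Mathlib

set_option autoImplicit false

/-!
Coded bracket words: the language `Lang`.
-/

namespace Pool.Agent.Y552.Qr

/-- Letters: `A i`, `B i` matched brackets of the chain, `H` the centre, `O`, `L` the brackets
around an inserted word. -/
inductive Lt
  | A (i : Bool)
  | B (i : Bool)
  | H
  | O
  | L
  deriving DecidableEq, Fintype

/-- The alphabet; `none` is the letter used for the unary codes. -/
abbrev Xa := Option Lt

/-- A letter with its code. -/
abbrev Bk := Lt × ℕ

/-- A block. -/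
def blk (x : Bk) : List Xa := some x.1 :: List.replicate x.2 none

/-- A sequence of blocks. -/
def enc (b : List Bk) : List Xa := b.flatMap blk

/-- The relation between two neighbouring blocks. -/
def Rel (x y : Bk) : Prop :=
  if x.1 = .O then y.2 = 2 * x.2 + 1 else if y.1 = .L then x.2 = 2 * y.2 + 1 else y.2 = x.2

/-- Chain words. -/
inductive C : List Lt → Prop
  | hash : C [.H]
  | pair (i : Bool) (w : List Lt) : C w → C (.A i :: (w ++ [.B i]))
  | left (u w : List Lt) : C u → C w → C (.O :: (u ++ .L :: w))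
  | right (u w : List Lt) : C u → C w → C (w ++ .O :: (u ++ [.L]))

/-- Chain words of bounded height. -/
inductive Ch : ℕ → List Lt → Prop
  | hash (h : ℕ) : Ch h [.H]
  | pair (h : ℕ) (i : Bool) (w : List Lt) : Ch h w → Ch h (.A i :: (w ++ [.B i]))
  | left (h : ℕ) (u w : List Lt) : Ch h u → Ch (h + 1) w → Ch (h + 1) (.O :: (u ++ .L :: w))
  | right (h : ℕ) (u w : List Lt) : Ch h u → Ch (h + 1) w → Ch (h + 1) (w ++ .O :: (u ++ [.L]))

/-- Correctly coded chain words of bounded height. -/
inductive LC : ℕ → ℕ → List Bk → Prop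
  | hash (c h : ℕ) : LC c h [(.H, c)]
  | pair (c h : ℕ) (i : Bool) (w : List Bk) : LC c h w → LC c h ((.A i, c) :: (w ++ [(.B i, c)]))
  | left (c h : ℕ) (u w : List Bk) : LC (2 * c + 1) h u → LC c (h + 1) w →
      LC c (h + 1) ((.O, c) :: (u ++ (.L, c) :: w))
  | right (c h : ℕ) (u w : List Bk) : LC (2 * c + 1) h u → LC c (h + 1) w →
      LC c (h + 1) (w ++ (.O, c) :: (u ++ [(.L, c)]))

/-- The language. -/
def Lang : Language Xa :=
  {w | ∃ b : List Bk, w = enc b ∧ (C (b.map Prod.fst) ∨ ¬ b.IsChain Rel)}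

/-! ### encoding -/

@[simp] theorem enc_nil : enc [] = [] := rfl

@[simp] theorem enc_cons (x : Bk) (b : List Bk) :
    enc (x :: b) = some x.1 :: (List.replicate x.2 none ++ enc b) := by
  simp [enc, blk]

@[simp] theorem enc_append (b b' : List Bk) : enc (b ++ b') = enc b ++ enc b' := by
  simp [enc]

theorem rep_none_inj {m n : ℕ} {u v : List Xa} (hu : u = [] ∨ ∃ a t, u = some a :: t)
    (hv : v = [] ∨ ∃ a t, v = some a :: t)
    (h : List.replicate m (none : Xa) ++ u = List.replicate n none ++ v) : m = n ∧ u = v := by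
  induction m generalizing n with
  | zero =>
    cases n with
    | zero => exact ⟨rfl, by simpa using h⟩
    | succ n =>
      rcases hu with rfl | ⟨a, t, rfl⟩
      · simp [List.replicate_succ] at h
      · simp [List.replicate_succ] at h
  | succ m ih =>
    cases n with
    | zero =>
      rcases hv with rfl | ⟨a, t, rfl⟩
      · simp [List.replicate_succ] at h
      · simp [List.replicate_succ] at h
    | succ n =>
      rw [List.replicate_succ, List.replicate_succ, List.cons_append, List.cons_append,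
        List.cons.injEq] at h
      obtain ⟨h1, h2⟩ := ih h.2
      exact ⟨by rw [h1], h2⟩

theorem enc_head (b : List Bk) : enc b = [] ∨ ∃ a t, enc b = some a :: t := by
  cases b with
  | nil => exact Or.inl rfl
  | cons x b => exact Or.inr ⟨x.1, _, enc_cons x b⟩

theorem enc_inj : ∀ b b' : List Bk, enc b = enc b' → b = b' := by
  intro b
  induction b with
  | nil =>
    intro b' h
    cases b' with
    | nil => rfl
    | cons x b' => simp at h
  | cons x b ih =>
    intro b' h
    cases b' with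
    | nil => simp at h
    | cons x' b' =>
      rw [enc_cons, enc_cons, List.cons.injEq] at h
      obtain ⟨h1, h2⟩ := rep_none_inj (enc_head b) (enc_head b') h.2
      rw [ih b' h2]
      congr 1
      exact Prod.ext (Option.some.inj h.1) h1

/-! ### first and last letters -/

theorem C_first {w : List Lt} (h : C w) : ∃ a t, w = a :: t ∧ a ≠ .L := by
  induction h with
  | hash => exact ⟨_, _, rfl, by decide⟩
  | pair i w _ _ => exact ⟨_, _, rfl, by simp⟩
  | left u w _ _ _ _ => exact ⟨_, _, rfl, by simp⟩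
  | right u w _ _ _ ih =>
    obtain ⟨a, t, rfl, ha⟩ := ih
    exact ⟨a, _, rfl, ha⟩

theorem C_last {w : List Lt} (h : C w) : ∃ a t, w = t ++ [a] ∧ a ≠ .O := by
  induction h with
  | hash => exact ⟨.H, [], rfl, by decide⟩
  | pair i w _ _ => exact ⟨.B i, .A i :: w, rfl, by simp⟩
  | left u w _ _ _ ih =>
    obtain ⟨a, t, rfl, ha⟩ := ih
    exact ⟨a, .O :: (u ++ .L :: t), by simp, ha⟩
  | right u w _ _ _ _ => exact ⟨.L, w ++ .O :: u, by simp, by simp⟩

theorem Ch.toC {h : ℕ} {w : List Lt} (hw : Ch h w) : C w := by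
  induction hw with
  | hash h => exact .hash
  | pair h i w _ ih => exact .pair i w ih
  | left h u w _ _ ih1 ih2 => exact .left u w ih1 ih2
  | right h u w _ _ ih1 ih2 => exact .right u w ih1 ih2

theorem Ch_hash_any (h : ℕ) : Ch h [.H] := .hash h

theorem LC.toCh {c h : ℕ} {b : List Bk} (hb : LC c h b) : Ch h (b.map Prod.fst) := by
  induction hb with
  | hash c h => exact .hash h
  | pair c h i w _ ih => simpa using Ch.pair h i _ ih
  | left c h u w _ _ ih1 ih2 => simpa using Ch.left h _ _ ih1 ih2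
  | right c h u w _ _ ih1 ih2 => simpa using Ch.right h _ _ ih1 ih2

theorem LC.first {c h : ℕ} {b : List Bk} (hb : LC c h b) : ∃ a t, b = (a, c) :: t ∧ a ≠ .L := by
  induction hb with
  | hash c h => exact ⟨_, _, rfl, by decide⟩
  | pair c h i w _ _ => exact ⟨_, _, rfl, by simp⟩
  | left c h u w _ _ _ _ => exact ⟨_, _, rfl, by simp⟩
  | right c h u w _ _ _ ih =>
    obtain ⟨a, t, rfl, ha⟩ := ih
    exact ⟨a, _, rfl, ha⟩

theorem LC.last {c h : ℕ} {b : List Bk} (hb : LC c h b) : ∃ a t, b = t ++ [(a, c)] ∧ a ≠ .O := by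
  induction hb with
  | hash c h => exact ⟨.H, [], rfl, by decide⟩
  | pair c h i w _ _ => exact ⟨.B i, (.A i, c) :: w, rfl, by simp⟩
  | left c h u w _ _ _ ih =>
    obtain ⟨a, t, rfl, ha⟩ := ih
    exact ⟨a, (.O, c) :: (u ++ (.L, c) :: t), by simp, ha⟩
  | right c h u w _ _ _ _ => exact ⟨.L, w ++ (.O, c) :: u, by simp, by simp⟩

/-! ### chains of blocks -/

theorem chain_glue {a b : Bk} {s t : List Bk} :
    (s ++ [a] ++ b :: t).IsChain Rel ↔ (s ++ [a]).IsChain Rel ∧ Rel a b ∧ (b :: t).IsChain Rel := by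
  rw [List.append_assoc, List.cons_append, List.nil_append, List.isChain_append_cons_cons]

theorem chain_cons2 {a b : Bk} {t : List Bk} :
    (a :: b :: t).IsChain Rel ↔ Rel a b ∧ (b :: t).IsChain Rel := by
  rw [List.isChain_cons_cons]

theorem LC.chain {c h : ℕ} {b : List Bk} (hb : LC c h b) : b.IsChain Rel := by
  induction hb with
  | hash c h => simp
  | pair c h i w hw ih =>
    obtain ⟨a, t, rfl, ha⟩ := hw.first
    rw [List.cons_append, chain_cons2, ← List.cons_append]
    refine ⟨by simp [Rel, ha], ?_⟩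
    obtain ⟨a', t', e, ha'⟩ := hw.last
    rw [e] at ih ⊢
    rw [chain_glue]
    exact ⟨ih, by simp [Rel, ha'], by simp⟩
  | left c h u w hu hw ih1 ih2 =>
    obtain ⟨a, t, rfl, ha⟩ := hu.first
    rw [List.cons_append, chain_cons2, ← List.cons_append]
    refine ⟨by simp [Rel], ?_⟩
    obtain ⟨a', t', e, ha'⟩ := hu.last
    rw [e] at ih1 ⊢
    rw [chain_glue]
    refine ⟨ih1, by simp [Rel, ha'], ?_⟩
    obtain ⟨a2, t2, rfl, ha2⟩ := hw.first
    rw [chain_cons2]
    exact ⟨by simp [Rel, ha2], ih2⟩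
  | right c h u w hu hw ih1 ih2 =>
    obtain ⟨a2, t2, e2, ha2⟩ := hw.last
    rw [e2] at ih2 ⊢
    rw [chain_glue]
    refine ⟨ih2, by simp [Rel, ha2], ?_⟩
    obtain ⟨a, t, rfl, ha⟩ := hu.first
    rw [List.cons_append, chain_cons2, ← List.cons_append]
    refine ⟨by simp [Rel], ?_⟩
    obtain ⟨a', t', e, ha'⟩ := hu.last
    rw [e] at ih1 ⊢
    rw [chain_glue]
    exact ⟨ih1, by simp [Rel, ha'], by simp⟩

theorem LC.codes {c h : ℕ} {b : List Bk} (hb : LC c h b) :
    ∀ x ∈ b, c ≤ x.2 ∧ x.2 + 1 ≤ (c + 1) * 2 ^ h := by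
  have key : ∀ c h : ℕ, c + 1 ≤ (c + 1) * 2 ^ h := fun c h =>
    Nat.le_mul_of_pos_right _ (by positivity)
  induction hb with
  | hash c h =>
    intro x hx
    rw [List.mem_singleton] at hx
    subst hx
    exact ⟨le_refl _, key c h⟩
  | pair c h i w hw ih =>
    intro x hx
    simp only [List.mem_cons, List.mem_append, List.not_mem_nil, or_false] at hx
    rcases hx with rfl | hx | rfl
    · exact ⟨le_refl _, key c h⟩
    · exact ih x hx
    · exact ⟨le_refl _, key c h⟩
  | left c h u w hu hw ih1 ih2 =>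
    intro x hx
    simp only [List.mem_cons, List.mem_append] at hx
    rcases hx with rfl | hx | rfl | hx
    · exact ⟨le_refl _, key c _⟩
    · obtain ⟨h1, h2⟩ := ih1 x hx
      refine ⟨by omega, h2.trans (le_of_eq ?_)⟩
      ring
    · exact ⟨le_refl _, key c _⟩
    · exact ih2 x hx
  | right c h u w hu hw ih1 ih2 =>
    intro x hx
    simp only [List.mem_cons, List.mem_append, List.not_mem_nil, or_false] at hx
    rcases hx with hx | rfl | hx | rfl
    · exact ih2 x hx
    · exact ⟨le_refl _, key c _⟩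
    · obtain ⟨h1, h2⟩ := ih1 x hx
      refine ⟨by omega, h2.trans (le_of_eq ?_)⟩
      ring
    · exact ⟨le_refl _, key c _⟩

theorem map_single {b : List Bk} {a : Lt} (h : b.map Prod.fst = [a]) : ∃ d, b = [(a, d)] := by
  obtain ⟨x, t, rfl, h1, h2⟩ := List.map_eq_cons_iff.1 h
  rw [List.map_eq_nil_iff] at h2
  subst h2
  exact ⟨x.2, by rw [← h1]⟩

theorem toLC {n : ℕ} {s : List Lt} (hs : C s) : ∀ (b : List Bk) (c h : ℕ), b.map Prod.fst = s →
    b.IsChain Rel → (∀ x ∈ b, x.2 < n) → (∃ a t, b = (a, c) :: t) → n ≤ (c + 1) * 2 ^ h →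
    LC c h b := by
  induction hs with
  | hash =>
    rintro b c h hb _ _ ⟨a, t, rfl⟩ _
    obtain ⟨d, hd⟩ := map_single hb
    rw [List.cons.injEq, Prod.mk.injEq] at hd
    obtain ⟨⟨rfl, rfl⟩, rfl⟩ := hd
    exact .hash _ _
  | pair i w hw ih =>
    rintro b c h hb hch hn ⟨a, t, rfl⟩ hh
    rw [List.map_cons, List.cons.injEq] at hb
    obtain ⟨ha, hb⟩ := hb
    have ha : a = .A i := ha
    subst ha
    obtain ⟨b1, b2, rfl, h1, h2⟩ := List.map_eq_append_iff.1 hb
    obtain ⟨d, rfl⟩ := map_single h2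
    -- first block of `b1`
    obtain ⟨a0, t0, e0, ha0⟩ := C_first hw
    rw [e0] at h1
    obtain ⟨⟨a1, c1⟩, t1, rfl, ha1, h1'⟩ := List.map_eq_cons_iff.1 h1
    have ha1 : a1 = a0 := ha1
    subst ha1
    rw [List.cons_append, chain_cons2, ← List.cons_append] at hch
    obtain ⟨hr, hch⟩ := hch
    have hc1 : c1 = c := by
      simpa [Rel, ha0] using hr
    subst hc1
    have hch1 : ((a1, c1) :: t1).IsChain Rel := (List.isChain_append.1 hch).1
    have h3 := ih ((a1, c1) :: t1) c1 h (by rw [e0]; simpa using h1') hch1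
      (fun x hx => hn x (by simp only [List.mem_cons, List.mem_append] at hx ⊢; tauto))
      ⟨a1, t1, rfl⟩ hh
    obtain ⟨a2, t2, e2, ha2⟩ := h3.last
    rw [e2, chain_glue] at hch
    have hd : d = c1 := by
      simpa [Rel, ha2] using hch.2.1
    subst hd
    exact .pair _ _ i _ h3
  | left u w hu hw ih1 ih2 =>
    rintro b c h hb hch hn ⟨a, t, rfl⟩ hh
    rw [List.map_cons, List.cons.injEq] at hb
    obtain ⟨ha, hb⟩ := hb
    have ha : a = .O := ha
    subst ha
    obtain ⟨b1, b2, rfl, h1, h2⟩ := List.map_eq_append_iff.1 hb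
    obtain ⟨⟨a3, d⟩, b3, rfl, ha3, h3⟩ := List.map_eq_cons_iff.1 h2
    have ha3 : a3 = .L := ha3
    subst ha3
    -- first block of `b1`
    obtain ⟨a0, t0, e0, ha0⟩ := C_first hu
    rw [e0] at h1
    obtain ⟨⟨a1, c1⟩, t1, rfl, ha1, h1'⟩ := List.map_eq_cons_iff.1 h1
    have ha1 : a1 = a0 := ha1
    subst ha1
    rw [List.cons_append, chain_cons2, ← List.cons_append] at hch
    obtain ⟨hr, hch⟩ := hch
    have hc1 : c1 = 2 * c + 1 := by
      simpa [Rel] using hr
    subst hc1
    have hn1 := hn (a1, 2 * c + 1) (by simp)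
    obtain ⟨h', rfl⟩ : ∃ h', h = h' + 1 := by
      refine ⟨h - 1, ?_⟩
      have : h ≠ 0 := by
        rintro rfl
        simp at hh hn1
        omega
      omega
    have h4 := ih1 ((a1, 2 * c + 1) :: t1) (2 * c + 1) h' (by rw [e0]; simpa using h1')
      (List.isChain_append.1 hch).1
      (fun x hx => hn x (by simp only [List.mem_cons, List.mem_append] at hx ⊢; tauto))
      ⟨a1, t1, rfl⟩ (hh.trans (le_of_eq (by ring)))
    obtain ⟨a2, t2, e2, ha2⟩ := h4.last
    rw [e2, chain_glue] at hch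
    have hd : c = d := by
      have := hch.2.1
      simp [Rel, ha2] at this
      omega
    subst hd
    -- first block of `b3`
    obtain ⟨a5, t5, e5, ha5⟩ := C_first hw
    rw [e5] at h3
    obtain ⟨⟨a6, c6⟩, t6, rfl, ha6, h6'⟩ := List.map_eq_cons_iff.1 h3
    have ha6 : a6 = a5 := ha6
    subst ha6
    have hch3 := hch.2.2
    rw [chain_cons2] at hch3
    have hc6 : c6 = c := by
      simpa [Rel, ha5] using hch3.1
    subst hc6
    have h7 := ih2 ((a6, c6) :: t6) c6 (h' + 1) (by rw [e5]; simpa using h6') hch3.2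
      (fun x hx => hn x (by simp only [List.mem_cons, List.mem_append] at hx ⊢; tauto))
      ⟨a6, t6, rfl⟩ hh
    exact .left _ _ _ _ h4 h7
  | right u w hu hw ih1 ih2 =>
    intro b c h hb hch hn hfirst hh
    obtain ⟨b1, b2, rfl, h1, h2⟩ := List.map_eq_append_iff.1 hb
    obtain ⟨⟨a3, d⟩, b3, rfl, ha3, h3⟩ := List.map_eq_cons_iff.1 h2
    have ha3 : a3 = .O := ha3
    subst ha3
    obtain ⟨b4, b5, rfl, h4, h5⟩ := List.map_eq_append_iff.1 h3
    obtain ⟨e, rfl⟩ := map_single h5
    have hfirst1 : ∃ a t, b1 = (a, c) :: t := by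
      obtain ⟨a0, t0, e0, ha0⟩ := C_first hw
      rw [e0] at h1
      obtain ⟨x, t1, rfl, _, _⟩ := List.map_eq_cons_iff.1 h1
      obtain ⟨a, t, ht⟩ := hfirst
      rw [List.cons_append, List.cons.injEq] at ht
      exact ⟨a, t1, by rw [ht.1]⟩
    have h6 := ih2 b1 c h h1 (List.isChain_append.1 hch).1
      (fun x hx => hn x (by simp only [List.mem_append]; tauto)) hfirst1 hh
    obtain ⟨a2, t2, e2, ha2⟩ := h6.last
    rw [e2, chain_glue] at hch
    obtain ⟨_, hr, hch⟩ := hch
    have hd : d = c := by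
      simpa [Rel, ha2] using hr
    subst hd
    -- first block of `b4`
    obtain ⟨a0, t0, e0, ha0⟩ := C_first hu
    rw [e0] at h4
    obtain ⟨⟨a1, c1⟩, t1, rfl, ha1, h1'⟩ := List.map_eq_cons_iff.1 h4
    have ha1 : a1 = a0 := ha1
    subst ha1
    rw [List.cons_append, chain_cons2, ← List.cons_append] at hch
    obtain ⟨hr, hch⟩ := hch
    have hc1 : c1 = 2 * d + 1 := by
      simpa [Rel] using hr
    subst hc1
    have hn1 := hn (a1, 2 * d + 1) (by simp)
    obtain ⟨h', rfl⟩ : ∃ h', h = h' + 1 := by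
      refine ⟨h - 1, ?_⟩
      have : h ≠ 0 := by
        rintro rfl
        simp at hh hn1
        omega
      omega
    have h7 := ih1 ((a1, 2 * d + 1) :: t1) (2 * d + 1) h' (by rw [e0]; simpa using h1')
      (List.isChain_append.1 hch).1
      (fun x hx => hn x (by simp only [List.mem_cons, List.mem_append] at hx ⊢; tauto))
      ⟨a1, t1, rfl⟩ (hh.trans (le_of_eq (by ring)))
    obtain ⟨a8, t8, e8, ha8⟩ := h7.last
    rw [e8, chain_glue] at hch
    have he : d = e := by
      have := hch.2.1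
      simp [Rel, ha8] at this
      omega
    subst he
    exact .right _ _ _ _ h7 h6

end Pool.Agent.Y552.Qr
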