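import Pool.Agent.Y552.Qr.Defs
import Pool.Agent.Y552.Qr.Base
import Pool.Agent.Helper178.GramLfp
import Pool.Agent.Helper288.ConeTr

set_option autoImplicit false

/-!
Linear languages are images of marked palindromes.
-/

namespace Pool.Agent.Y552.Qr

open Symbol Pool.Agent.Helper178.Gram Pool.Agent.Helper288.Cone

/-- Marked palindromes. -/
inductive PalP : List Lt → Prop
  | hash : PalP [.H]
  | pair (i : Bool) (w : List Lt) : PalP w → PalP (.A i :: (w ++ [.B i]))

theorem palP_of (w : List Bool) : PalP (w.map Lt.A ++ .H :: w.reverse.map Lt.B) := by
  induction w with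
  | nil => exact .hash
  | cons i w ih => simpa using PalP.pair i _ ih

theorem palP_iff (u : List Lt) : PalP u ↔ ∃ w : List Bool, u = w.map Lt.A ++ .H ::
    w.reverse.map Lt.B := by
  constructor
  · intro h
    induction h with
    | hash => exact ⟨[], rfl⟩
    | pair i u _ ih =>
      obtain ⟨w, rfl⟩ := ih
      exact ⟨i :: w, by simp⟩
  · rintro ⟨w, rfl⟩
    exact palP_of w

theorem map_A_append_inj {w w' : List Bool} {u u' : List Lt}
    (h : w.map Lt.A ++ .H :: u = w'.map Lt.A ++ .H :: u') : w = w' ∧ u = u' := by
  induction w generalizing w' with
  | nil =>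
    cases w' with
    | nil => simpa using h
    | cons i w' => simp at h
  | cons i w ih =>
    cases w' with
    | nil => simp at h
    | cons i' w' =>
      simp only [List.map_cons, List.cons_append, List.cons.injEq, Lt.A.injEq] at h
      obtain ⟨h1, h2⟩ := ih h.2
      exact ⟨by rw [h.1, h1], h2⟩

theorem palP_halves (w w' : List Bool) : PalP (w.map Lt.A ++ .H :: w'.map Lt.B) ↔
    w' = w.reverse := by
  rw [palP_iff]
  constructor
  · rintro ⟨x, hx⟩
    obtain ⟨rfl, h2⟩ := map_A_append_inj hx
    exact (List.map_injective_iff.2 (fun i j h => by simpa using h)) h2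
  · rintro rfl
    exact ⟨w, rfl⟩

/-- Every step reads or writes nothing. -/
def Split {X Y : Type} (T : Tr X Y) : Prop :=
  ∀ p x y q, T.step p x y q → x = none ∨ y = none

section

variable {T : Type} (g : ContextFreeGrammar T)

/-- The rules as a type. -/
abbrev Ru := {r : ContextFreeRule T g.NT // r ∈ g.rules}

variable {g}
variable (u v : Ru g → List T) (a : Ru g → Option g.NT)

/-- Compatible sequences of rules. -/
def cmp : Option g.NT → List (Ru g) → Prop
  | x, [] => x = none
  | x, r :: l => x = some r.1.input ∧ cmp (a r) l

/-- The word produced. -/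
def out (l : List (Ru g)) : List T := l.flatMap u ++ l.reverse.flatMap v

theorem out_cons (r : Ru g) (l : List (Ru g)) : out u v (r :: l) = u r ++ (out u v l ++ v r) := by
  simp [out]

theorem lin_word (hr : ∀ r : Ru g, r.1.output = (u r).map terminal ++
      ((a r).toList.map nonterminal ++ (v r).map terminal)) (w : List T) (A : g.NT) :
    Der g A w ↔ ∃ l, cmp a (some A) l ∧ w = out u v l := by
  constructor
  · intro h
    have h1 := sound (g := g) (I := fun A w => ∃ l, cmp a (some A) l ∧ w = out u v l) (by
      intro r hr0 w hw
      rw [hr ⟨r, hr0⟩, Yl_append] at hw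
      obtain ⟨w1, w2, rfl, h1, h2⟩ := hw
      obtain ⟨w3, w4, rfl, h3, h4⟩ := (Yl_append _ _ _).1 h2
      have key : ∀ (x : List T) (w : List T) (I : g.NT → List T → Prop),
          Yl I (x.map terminal) w → w = x := by
        intro x
        induction x with
        | nil => intro w I h; exact h
        | cons t x ih =>
          rintro _ I ⟨w', rfl, h⟩
          rw [ih w' I h]
      have e1 := key _ _ _ h1
      have e4 := key _ _ _ h4
      subst e1 e4
      cases ha : a ⟨r, hr0⟩ with
      | none =>
        rw [ha] at h3
        have h3 : w3 = [] := h3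
        subst h3
        exact ⟨[⟨r, hr0⟩], ⟨rfl, ha⟩, by simp [out]⟩
      | some B =>
        rw [ha] at h3
        obtain ⟨w5, w6, rfl, ⟨l, hl, rfl⟩, h6⟩ := h3
        have h6 : w6 = [] := h6
        subst h6
        refine ⟨⟨r, hr0⟩ :: l, ⟨rfl, by rw [ha]; exact hl⟩, ?_⟩
        rw [out_cons]
        simp) h
    obtain ⟨w1, w2, rfl, h2, h3⟩ := h1
    have h3 : w2 = [] := h3
    subst h3
    rw [List.append_nil]
    exact h2
  · rintro ⟨l, hl, rfl⟩
    induction l generalizing A with
    | nil => exact absurd hl (by simp [cmp])
    | cons r l ih =>
      obtain ⟨h1, h2⟩ := hl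
      have h1 : A = r.1.input := Option.some.inj h1
      subst h1
      rw [out_cons]
      refine complete (g := g) (r := r.1) r.2 ?_
      rw [hr r]
      refine (Yl_append _ _ _).2 ⟨_, _, rfl, Yl_map _, (Yl_append _ _ _).2 ⟨_, _, rfl, ?_,
        Yl_map _⟩⟩
      cases ha : a r with
      | none =>
        rw [ha] at h2
        cases l with
        | nil => rfl
        | cons r' l => exact absurd h2.1 (by simp)
      | some B =>
        rw [ha] at h2
        exact ⟨_, [], by simp, ih B h2, rfl⟩

/-- The nonterminal after a state of the automaton. -/
def cn : Option (Ru g) → Option g.NT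
  | none => some g.initial
  | some r => a r

open Classical in
/-- The automaton of the rule sequences. -/
noncomputable def lM : DFA (Option (Ru g × Bool)) (Option (Option (Option (Ru g)))) where
  step s x := match s, x with
    | none, _ => none
    | some none, some (_, true) => some none
    | some none, _ => none
    | some (some o), some (r, false) => if cn a o = some r.1.input then some (some (some r))
        else none
    | some (some o), none => if cn a o = none then some none else none
    | some (some _), some (_, true) => none
  start := some (some none)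
  accept := {s | s = some none}

theorem lM_dead (z : List (Option (Ru g × Bool))) : (lM a).evalFrom none z = none := by
  induction z with
  | nil => rfl
  | cons x z ih => rw [DFA.evalFrom_cons]; exact ih

theorem lM_done (z : List (Option (Ru g × Bool))) : (lM a).evalFrom (some none) z = some none ↔
    ∃ rs : List (Ru g), z = rs.map (fun r => some (r, true)) := by
  induction z with
  | nil => simp
  | cons x z ih =>
    rw [DFA.evalFrom_cons]
    match x with
    | some (r, true) =>
      have : (lM a).step (some none) (some (r, true)) = some none := rfl
      rw [this, ih]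
      constructor
      · rintro ⟨rs, rfl⟩; exact ⟨r :: rs, rfl⟩
      · rintro ⟨rs, h⟩
        cases rs with
        | nil => simp at h
        | cons r' rs =>
          rw [List.map_cons, List.cons.injEq] at h
          exact ⟨rs, h.2⟩
    | some (r, false) =>
      have : (lM a).step (some none) (some (r, false)) = none := rfl
      rw [this, lM_dead]
      constructor
      · intro h; simp at h
      · rintro ⟨rs, h⟩
        cases rs with
        | nil => simp at h
        | cons r' rs => simp at h
    | none =>
      have : (lM a).step (some none) none = none := rfl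
      rw [this, lM_dead]
      constructor
      · intro h; simp at h
      · rintro ⟨rs, h⟩
        cases rs with
        | nil => simp at h
        | cons r' rs => simp at h

open Classical in
theorem lM_cur (z : List (Option (Ru g × Bool))) : ∀ o : Option (Ru g),
    (lM a).evalFrom (some (some o)) z = some none ↔
    ∃ ls rs : List (Ru g), cmp a (cn a o) ls ∧
      z = ls.map (fun r => some (r, false)) ++ none :: rs.map (fun r => some (r, true)) := by
  induction z with
  | nil =>
    intro o
    constructor
    · intro h
      have h : some (some o) = some none := h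
      simp at h
    · rintro ⟨ls, rs, _, h⟩
      simp at h
  | cons x z ih =>
    intro o
    rw [DFA.evalFrom_cons]
    match x with
    | some (r, true) =>
      have : (lM a).step (some (some o)) (some (r, true)) = none := rfl
      rw [this, lM_dead]
      constructor
      · intro h; simp at h
      · rintro ⟨ls, rs, _, h⟩
        cases ls with
        | nil => simp at h
        | cons r' ls => simp at h
    | some (r, false) =>
      have : (lM a).step (some (some o)) (some (r, false)) =
        if cn a o = some r.1.input then some (some (some r)) else none := rfl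
      rw [this]
      by_cases hc : cn a o = some r.1.input
      · rw [if_pos hc, ih]
        constructor
        · rintro ⟨ls, rs, h1, rfl⟩
          exact ⟨r :: ls, rs, ⟨hc, h1⟩, by simp⟩
        · rintro ⟨ls, rs, h1, h2⟩
          cases ls with
          | nil => simp at h2
          | cons r' ls =>
            simp only [List.map_cons, List.cons_append, List.cons.injEq, Option.some.injEq,
              Prod.mk.injEq, and_true] at h2
            obtain ⟨rfl, rfl⟩ := h2
            exact ⟨ls, rs, h1.2, rfl⟩
      · rw [if_neg hc, lM_dead]
        constructor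
        · intro h; simp at h
        · rintro ⟨ls, rs, h1, h2⟩
          cases ls with
          | nil => simp at h2
          | cons r' ls =>
            simp only [List.map_cons, List.cons_append, List.cons.injEq, Option.some.injEq,
              Prod.mk.injEq, and_true] at h2
            obtain ⟨rfl, rfl⟩ := h2
            exact absurd h1.1 hc
    | none =>
      have : (lM a).step (some (some o)) none = if cn a o = none then some none else none := rfl
      rw [this]
      by_cases hc : cn a o = none
      · rw [if_pos hc, lM_done]
        constructor
        · rintro ⟨rs, rfl⟩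
          exact ⟨[], rs, hc, rfl⟩
        · rintro ⟨ls, rs, h1, h2⟩
          cases ls with
          | nil =>
            simp only [List.map_nil, List.nil_append, List.cons.injEq, true_and] at h2
            exact ⟨rs, h2⟩
          | cons r' ls => simp at h2
      · rw [if_neg hc, lM_dead]
        constructor
        · intro h; simp at h
        · rintro ⟨ls, rs, h1, h2⟩
          cases ls with
          | nil => exact absurd h1 hc
          | cons r' ls => simp at h2

/-- The code of a rule. -/
def cb (e : Ru g → ℕ) (rs : List (Ru g)) : List Bool :=
  rs.flatMap (fun r => false :: List.replicate (e r) true)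

theorem rep_true_inj {m n : ℕ} {x y : List Bool} (hx : x = [] ∨ ∃ t, x = false :: t)
    (hy : y = [] ∨ ∃ t, y = false :: t)
    (h : List.replicate m true ++ x = List.replicate n true ++ y) : m = n ∧ x = y := by
  induction m generalizing n with
  | zero =>
    cases n with
    | zero => exact ⟨rfl, by simpa using h⟩
    | succ n =>
      rcases hx with rfl | ⟨t, rfl⟩
      · simp [List.replicate_succ] at h
      · simp [List.replicate_succ] at h
  | succ m ih =>
    cases n with
    | zero =>
      rcases hy with rfl | ⟨t, rfl⟩
      · simp [List.replicate_succ] at h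
      · simp [List.replicate_succ] at h
    | succ n =>
      rw [List.replicate_succ, List.replicate_succ, List.cons_append, List.cons_append,
        List.cons.injEq] at h
      obtain ⟨h1, h2⟩ := ih h.2
      exact ⟨by rw [h1], h2⟩

theorem cb_inj (e : Ru g → ℕ) (he : Function.Injective e) : ∀ rs rs' : List (Ru g),
    cb e rs = cb e rs' → rs = rs' := by
  have hh : ∀ rs : List (Ru g), cb e rs = [] ∨ ∃ t, cb e rs = false :: t := by
    intro rs
    cases rs with
    | nil => exact Or.inl rfl
    | cons r rs => exact Or.inr ⟨_, rfl⟩
  have hc : ∀ r rs, cb e (r :: rs) = false :: (List.replicate (e r) true ++ cb e rs) := by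
    intro r rs
    simp [cb]
  intro rs
  induction rs with
  | nil =>
    intro rs' h
    cases rs' with
    | nil => rfl
    | cons r rs' => rw [hc] at h; simp [cb] at h
  | cons r rs ih =>
    intro rs' h
    cases rs' with
    | nil => rw [hc] at h; simp [cb] at h
    | cons r' rs' =>
      rw [hc, hc, List.cons.injEq] at h
      obtain ⟨h1, h2⟩ := rep_true_inj (hh rs) (hh rs') h.2
      rw [ih rs' h2, he h1]

/-- Input words of the transducer. -/
def hI (e : Ru g → ℕ) : Option (Ru g × Bool) → List Lt
  | none => [.H]
  | some (r, true) => (false :: List.replicate (e r) true).map Lt.B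
  | some (r, false) => (false :: List.replicate (e r) true).reverse.map Lt.A

/-- Output words of the transducer. -/
def gO : Option (Ru g × Bool) → List T
  | none => []
  | some (r, true) => v r
  | some (r, false) => u r

theorem hI_right (e : Ru g → ℕ) (rs : List (Ru g)) :
    (rs.map (fun r => some (r, true))).flatMap (hI e) = (cb e rs).map Lt.B := by
  induction rs with
  | nil => rfl
  | cons r rs ih =>
    rw [List.map_cons, List.flatMap_cons, ih, cb, cb, List.flatMap_cons, List.map_append]
    rfl

theorem hI_left (e : Ru g → ℕ) (ls : List (Ru g)) :
    (ls.map (fun r => some (r, false))).flatMap (hI e) = (cb e ls.reverse).reverse.map Lt.A := by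
  induction ls with
  | nil => rfl
  | cons r ls ih =>
    rw [List.map_cons, List.flatMap_cons, ih, cb, cb, List.reverse_cons, List.flatMap_append,
      List.reverse_append, List.map_append]
    simp [hI]

theorem gO_right (rs : List (Ru g)) :
    (rs.map (fun r => some (r, true))).flatMap (gO u v) = rs.flatMap v := by
  induction rs with
  | nil => rfl
  | cons r rs ih => rw [List.map_cons, List.flatMap_cons, ih, List.flatMap_cons]; rfl

theorem gO_left (ls : List (Ru g)) :
    (ls.map (fun r => some (r, false))).flatMap (gO u v) = ls.flatMap u := by
  induction ls with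
  | nil => rfl
  | cons r rs ih => rw [List.map_cons, List.flatMap_cons, ih, List.flatMap_cons]; rfl

end

theorem nivat_split {W X Y : Type} [Fintype W] (h : W → List X) (g : W → List Y) {σ : Type}
    [Fintype σ] (M : DFA W σ) : Split (nivatTr h g M) := by
  intro p x y q hs
  rcases hs with ⟨_, _, rfl, _, _⟩ | ⟨x0, _, rfl, _⟩ | ⟨y0, _, rfl, _⟩
  · exact Or.inl rfl
  · exact Or.inr rfl
  · exact Or.inl rfl

theorem lin_tr {Y : Type} (L : Language Y) (hL : IsLinear L) :
    ∃ T : Tr Lt Y, Split T ∧ ∀ v, v ∈ L ↔ ∃ u, PalP u ∧ T.rel u v := by
  obtain ⟨g, rfl, hg⟩ := hL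
  have h1 : ∀ r : Ru g, ∃ (u v : List Y) (a : Option g.NT), r.1.output = u.map terminal ++
      (a.toList.map nonterminal ++ v.map terminal) := by
    intro r
    rcases hg r.1 r.2 with ⟨u, hu⟩ | ⟨u, v, A, hu⟩
    · exact ⟨u, [], none, by simp [hu]⟩
    · exact ⟨u, v, some A, by simp [hu]⟩
  choose u v a hr using h1
  obtain ⟨e, he⟩ : ∃ e : Ru g → ℕ, Function.Injective e :=
    ⟨fun r => ((Finite.equivFin (Ru g)) r : ℕ), fun r s h => by
      simpa using Fin.ext h⟩
  refine ⟨nivatTr (hI e) (gO u v) (lM a), nivat_split _ _ _, fun w => ?_⟩
  have hw : w ∈ g.language ↔ ∃ l, cmp a (some g.initial) l ∧ w = out u v l := by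
    rw [ContextFreeGrammar.mem_language_iff]
    exact lin_word u v a hr w g.initial
  rw [hw]
  constructor
  · rintro ⟨l, hl, rfl⟩
    refine ⟨_, palP_of ((cb e l.reverse).reverse), (nivatTr_rel _ _ _ _ _).2
      ⟨l.map (fun r => some (r, false)) ++ none :: l.reverse.map (fun r => some (r, true)),
        ?_, ?_, ?_⟩⟩
    · rw [DFA.mem_accepts]
      exact (lM_cur a _ none).2 ⟨l, l.reverse, hl, rfl⟩
    · rw [List.flatMap_append, List.flatMap_cons, hI_left, hI_right]
      simp [hI]
    · rw [List.flatMap_append, List.flatMap_cons, gO_left, gO_right]
      simp [gO, out]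
  · rintro ⟨x, hx, hrel⟩
    obtain ⟨z, hz, rfl, rfl⟩ := (nivatTr_rel _ _ _ _ _).1 hrel
    rw [DFA.mem_accepts] at hz
    obtain ⟨ls, rs, h2, rfl⟩ := (lM_cur a _ none).1 hz
    rw [List.flatMap_append, List.flatMap_cons, hI_left, hI_right] at hx
    have h3 := (palP_halves _ _).1 hx
    rw [List.reverse_reverse] at h3
    have h4 := cb_inj e he _ _ h3
    subst h4
    refine ⟨ls, h2, ?_⟩
    rw [List.flatMap_append, List.flatMap_cons, gO_left, gO_right]
    simp [gO, out]

end Pool.Agent.Y552.Qr
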