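import Pool.Agent.Y552.Qr.Base
import Pool.Agent.Helper178.GramLfp

set_option autoImplicit false

/-!
`Lang` is context-free.
-/

namespace Pool.Agent.Y552.Qr

open Symbol Pool.Agent.Helper178.Gram

/-- Nonterminals. -/
inductive NT
  | S
  | Z
  | B
  | K
  | E
  | D
  | F
  deriving DecidableEq

/-- terminal letter -/
abbrev tt (a : Lt) : Symbol Xa NT := terminal (some a)
/-- terminal code letter -/
abbrev tz : Symbol Xa NT := terminal none
/-- nonterminal -/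
abbrev nt (A : NT) : Symbol Xa NT := nonterminal A

/-- The letters. -/
def lts : List Lt := [.A false, .A true, .B false, .B true, .H, .O, .L]

theorem mem_lts (a : Lt) : a ∈ lts := by
  cases a with
  | A i => cases i <;> simp [lts]
  | B i => cases i <;> simp [lts]
  | H => simp [lts]
  | O => simp [lts]
  | L => simp [lts]

/-- The rules without a letter. -/
def rl0 : List (ContextFreeRule Xa NT) := [
  ⟨.S, [nt .K]⟩,
  ⟨.S, [nt .B, tt .O, nt .D, nt .B]⟩,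
  ⟨.Z, []⟩,
  ⟨.Z, [tz, nt .Z]⟩,
  ⟨.B, []⟩,
  ⟨.K, [tt .H, nt .Z]⟩,
  ⟨.K, [tt .O, nt .Z, nt .K, tt .L, nt .Z, nt .K]⟩,
  ⟨.K, [nt .K, tt .O, nt .Z, nt .K, tt .L, nt .Z]⟩,
  ⟨.E, [tz, nt .E, tz]⟩,
  ⟨.D, [tz, nt .D, tz, tz]⟩,
  ⟨.F, [tz, tz, nt .F, tz]⟩,
  ⟨.F, [tt .L]⟩,
  ⟨.F, [tz, tz, nt .Z, tt .L]⟩,
  ⟨.F, [tt .L, tz, nt .Z]⟩,
  ⟨.F, [tz, tt .L, tz, nt .Z]⟩]

/-- The rules with a letter. -/
def rl1 (a : Lt) : List (ContextFreeRule Xa NT) := [
  ⟨.B, [tt a, nt .Z, nt .B]⟩,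
  ⟨.D, [tt a]⟩,
  ⟨.D, [tt a, tz, tz, nt .Z]⟩,
  ⟨.D, [tz, nt .Z, tt a]⟩,
  ⟨.D, [tz, nt .Z, tt a, tz]⟩]

/-- The rules with a letter different from `O`. -/
def rl2 (a : Lt) : List (ContextFreeRule Xa NT) := [
  ⟨.S, [nt .B, tt a, nt .E, nt .B]⟩,
  ⟨.S, [nt .B, tt a, nt .F, nt .B]⟩]

/-- The rules with a letter different from `L`. -/
def rl3 (a : Lt) : List (ContextFreeRule Xa NT) := [
  ⟨.E, [tz, nt .Z, tt a]⟩,
  ⟨.E, [tt a, tz, nt .Z]⟩]

/-- The chain rules. -/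
def rl4 (i : Bool) : ContextFreeRule Xa NT :=
  ⟨.K, [tt (.A i), nt .Z, nt .K, tt (.B i), nt .Z]⟩

/-- The rules. -/
def rl : List (ContextFreeRule Xa NT) :=
  rl0 ++ lts.flatMap rl1 ++ (lts.filter (· ≠ .O)).flatMap rl2 ++
    (lts.filter (· ≠ .L)).flatMap rl3 ++ [rl4 false, rl4 true]

theorem mem_rl (r : ContextFreeRule Xa NT) : r ∈ rl ↔ r ∈ rl0 ∨ (∃ a, r ∈ rl1 a) ∨
    (∃ a, a ≠ .O ∧ r ∈ rl2 a) ∨ (∃ a, a ≠ .L ∧ r ∈ rl3 a) ∨ ∃ i, r = rl4 i := by
  simp only [rl, List.mem_append, List.mem_flatMap, List.mem_filter, mem_lts, true_and,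
    decide_eq_true_eq, List.mem_cons, List.not_mem_nil, or_false]
  constructor
  · rintro ((((h | h) | h) | h) | h | h)
    · exact Or.inl h
    · exact Or.inr (Or.inl h)
    · exact Or.inr (Or.inr (Or.inl h))
    · exact Or.inr (Or.inr (Or.inr (Or.inl h)))
    · exact Or.inr (Or.inr (Or.inr (Or.inr ⟨_, h⟩)))
    · exact Or.inr (Or.inr (Or.inr (Or.inr ⟨_, h⟩)))
  · rintro (h | h | h | h | ⟨i, h⟩)
    · exact Or.inl (Or.inl (Or.inl (Or.inl h)))
    · exact Or.inl (Or.inl (Or.inl (Or.inr h)))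
    · exact Or.inl (Or.inl (Or.inr h))
    · exact Or.inl (Or.inr h)
    · cases i
      · exact Or.inr (Or.inl h)
      · exact Or.inr (Or.inr h)

/-- The grammar. -/
def gr : ContextFreeGrammar Xa where
  NT := NT
  initial := NT.S
  rules := rl.toFinset

theorem mem_gr (r : ContextFreeRule Xa NT) : r ∈ gr.rules ↔ r ∈ rl := by
  show r ∈ rl.toFinset ↔ _
  exact List.mem_toFinset

/-- code blocks -/
abbrev rz (n : ℕ) : List Xa := List.replicate n none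

theorem rz_succ (n : ℕ) : none :: rz n = rz (n + 1) := by
  rw [rz, rz, List.replicate_succ]

theorem rz_succ' (n : ℕ) : rz n ++ [none] = rz (n + 1) := by
  rw [rz, rz, List.replicate_succ']

/-- The interpretation. -/
def In : NT → List Xa → Prop
  | .S, w => w ∈ Lang
  | .Z, w => ∃ n, w = rz n
  | .B, w => ∃ b, w = enc b
  | .K, w => ∃ b : List Bk, C (b.map Prod.fst) ∧ w = enc b
  | .E, w => ∃ c a c', a ≠ Lt.L ∧ c' ≠ c ∧ w = rz c ++ some a :: rz c'
  | .D, w => ∃ c a c', c' ≠ 2 * c + 1 ∧ w = rz c ++ some a :: rz c'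
  | .F, w => ∃ c c', c ≠ 2 * c' + 1 ∧ w = rz c ++ some Lt.L :: rz c'

theorem not_isChain_mid (b1 b2 : List Bk) {x y : Bk} (h : ¬ Rel x y) :
    ¬ (b1 ++ x :: y :: b2).IsChain Rel := by
  rw [List.isChain_append_cons_cons]
  exact fun h' => h h'.2.1

theorem In_closed : ∀ r ∈ rl, ∀ w, Yl In r.output w → In r.input w := by
  intro r hr
  rcases (mem_rl r).1 hr with hr | ⟨a, hr⟩ | ⟨a, ha, hr⟩ | ⟨a, ha, hr⟩ | ⟨i, rfl⟩
  · simp only [rl0, List.mem_cons, List.not_mem_nil, or_false] at hr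
    rcases hr with rfl | rfl | rfl | rfl | rfl | rfl | rfl | rfl | rfl | rfl | rfl | rfl | rfl |
      rfl | rfl
    · rintro _ ⟨_, _, rfl, ⟨b, hb, rfl⟩, rfl⟩
      exact ⟨b, by simp, Or.inl hb⟩
    · rintro _ ⟨_, _, rfl, ⟨b1, rfl⟩, _, rfl, _, _, rfl, ⟨c, a, c', hc, rfl⟩, _, _, rfl,
        ⟨b2, rfl⟩, rfl⟩
      refine ⟨b1 ++ (.O, c) :: (a, c') :: b2, by simp, Or.inr ?_⟩
      exact not_isChain_mid _ _ (by simp [Rel, hc])
    · rintro _ rfl
      exact ⟨0, rfl⟩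
    · rintro _ ⟨_, rfl, _, _, rfl, ⟨n, rfl⟩, rfl⟩
      exact ⟨n + 1, by rw [List.append_nil, rz_succ]⟩
    · rintro _ rfl
      exact ⟨[], rfl⟩
    · rintro _ ⟨_, rfl, _, _, rfl, ⟨n, rfl⟩, rfl⟩
      exact ⟨[(.H, n)], .hash, by simp⟩
    · rintro _ ⟨_, rfl, _, _, rfl, ⟨n, rfl⟩, _, _, rfl, ⟨b, hb, rfl⟩, _, rfl, _, _, rfl, ⟨m, rfl⟩,
        _, _, rfl, ⟨b', hb', rfl⟩, rfl⟩
      exact ⟨(.O, n) :: (b ++ (.L, m) :: b'), by simpa using C.left _ _ hb hb', by simp⟩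
    · rintro _ ⟨_, _, rfl, ⟨b', hb', rfl⟩, _, rfl, _, _, rfl, ⟨n, rfl⟩, _, _, rfl, ⟨b, hb, rfl⟩,
        _, rfl, _, _, rfl, ⟨m, rfl⟩, rfl⟩
      exact ⟨b' ++ (.O, n) :: (b ++ [(.L, m)]), by simpa using C.right _ _ hb hb', by simp⟩
    · rintro _ ⟨_, rfl, _, _, rfl, ⟨c, a, c', ha, hc, rfl⟩, _, rfl, rfl⟩
      refine ⟨c + 1, a, c' + 1, ha, by omega, ?_⟩
      rw [← rz_succ, ← rz_succ']
      simp
    · rintro _ ⟨_, rfl, _, _, rfl, ⟨c, a, c', hc, rfl⟩, _, rfl, _, rfl, rfl⟩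
      refine ⟨c + 1, a, c' + 1 + 1, by omega, ?_⟩
      rw [← rz_succ, ← rz_succ' (c' + 1), ← rz_succ']
      simp
    · rintro _ ⟨_, rfl, _, rfl, _, _, rfl, ⟨c, c', hc, rfl⟩, _, rfl, rfl⟩
      refine ⟨c + 1 + 1, c' + 1, by omega, ?_⟩
      rw [← rz_succ, ← rz_succ, ← rz_succ']
      simp
    · rintro _ ⟨_, rfl, rfl⟩
      exact ⟨0, 0, by omega, rfl⟩
    · rintro _ ⟨_, rfl, _, rfl, _, _, rfl, ⟨n, rfl⟩, _, rfl, rfl⟩
      refine ⟨n + 1 + 1, 0, by omega, ?_⟩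
      rw [← rz_succ, ← rz_succ]
      simp
    · rintro _ ⟨_, rfl, _, rfl, _, _, rfl, ⟨n, rfl⟩, rfl⟩
      refine ⟨0, n + 1, by omega, ?_⟩
      rw [← rz_succ]
      simp
    · rintro _ ⟨_, rfl, _, rfl, _, rfl, _, _, rfl, ⟨n, rfl⟩, rfl⟩
      refine ⟨1, n + 1, by omega, ?_⟩
      rw [← rz_succ n]
      simp [List.replicate_succ]
  · simp only [rl1, List.mem_cons, List.not_mem_nil, or_false] at hr
    rcases hr with rfl | rfl | rfl | rfl | rfl
    · rintro _ ⟨_, rfl, _, _, rfl, ⟨n, rfl⟩, _, _, rfl, ⟨b, rfl⟩, rfl⟩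
      exact ⟨(a, n) :: b, by simp⟩
    · rintro _ ⟨_, rfl, rfl⟩
      exact ⟨0, a, 0, by omega, rfl⟩
    · rintro _ ⟨_, rfl, _, rfl, _, rfl, _, _, rfl, ⟨n, rfl⟩, rfl⟩
      refine ⟨0, a, n + 1 + 1, by omega, ?_⟩
      rw [← rz_succ, ← rz_succ]
      simp
    · rintro _ ⟨_, rfl, _, _, rfl, ⟨n, rfl⟩, _, rfl, rfl⟩
      refine ⟨n + 1, a, 0, by omega, ?_⟩
      rw [← rz_succ]
      simp
    · rintro _ ⟨_, rfl, _, _, rfl, ⟨n, rfl⟩, _, rfl, _, rfl, rfl⟩
      refine ⟨n + 1, a, 1, by omega, ?_⟩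
      rw [← rz_succ]
      simp
  · simp only [rl2, List.mem_cons, List.not_mem_nil, or_false] at hr
    rcases hr with rfl | rfl
    · rintro _ ⟨_, _, rfl, ⟨b1, rfl⟩, _, rfl, _, _, rfl, ⟨c, a', c', ha', hc, rfl⟩, _, _, rfl,
        ⟨b2, rfl⟩, rfl⟩
      refine ⟨b1 ++ (a, c) :: (a', c') :: b2, by simp, Or.inr ?_⟩
      exact not_isChain_mid _ _ (by simp [Rel, ha, ha', hc])
    · rintro _ ⟨_, _, rfl, ⟨b1, rfl⟩, _, rfl, _, _, rfl, ⟨c, c', hc, rfl⟩, _, _, rfl,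
        ⟨b2, rfl⟩, rfl⟩
      refine ⟨b1 ++ (a, c) :: (.L, c') :: b2, by simp, Or.inr ?_⟩
      exact not_isChain_mid _ _ (by simp [Rel, ha, hc])
  · simp only [rl3, List.mem_cons, List.not_mem_nil, or_false] at hr
    rcases hr with rfl | rfl
    · rintro _ ⟨_, rfl, _, _, rfl, ⟨n, rfl⟩, _, rfl, rfl⟩
      refine ⟨n + 1, a, 0, ha, by omega, ?_⟩
      rw [← rz_succ]
      simp
    · rintro _ ⟨_, rfl, _, rfl, _, _, rfl, ⟨n, rfl⟩, rfl⟩
      refine ⟨0, a, n + 1, ha, by omega, ?_⟩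
      rw [← rz_succ]
      simp
  · rintro _ ⟨_, rfl, _, _, rfl, ⟨n, rfl⟩, _, _, rfl, ⟨b, hb, rfl⟩, _, rfl, _, _, rfl, ⟨m, rfl⟩,
      rfl⟩
    exact ⟨(.A i, n) :: (b ++ [(.B i, m)]), by simpa using C.pair i _ hb, by simp⟩

/-- Words derived from a nonterminal of the grammar. -/
abbrev Dr (A : NT) (w : List Xa) : Prop := Der gr A w

theorem dr_rule {A : NT} {s : List (Symbol Xa NT)}
    (h : (⟨A, s⟩ : ContextFreeRule Xa NT) ∈ rl) {w : List Xa} (hw : Yl Dr s w) : Dr A w :=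
  complete (g := gr) (r := ⟨A, s⟩) ((mem_gr _).mpr h) hw

theorem m0 {r : ContextFreeRule Xa NT} (h : r ∈ rl0) : r ∈ rl := (mem_rl r).2 (Or.inl h)
theorem m1 (a : Lt) {r : ContextFreeRule Xa NT} (h : r ∈ rl1 a) : r ∈ rl :=
  (mem_rl r).2 (Or.inr (Or.inl ⟨a, h⟩))
theorem m2 {a : Lt} (ha : a ≠ .O) {r : ContextFreeRule Xa NT} (h : r ∈ rl2 a) : r ∈ rl :=
  (mem_rl r).2 (Or.inr (Or.inr (Or.inl ⟨a, ha, h⟩)))
theorem m3 {a : Lt} (ha : a ≠ .L) {r : ContextFreeRule Xa NT} (h : r ∈ rl3 a) : r ∈ rl :=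
  (mem_rl r).2 (Or.inr (Or.inr (Or.inr (Or.inl ⟨a, ha, h⟩))))
theorem m4 (i : Bool) : rl4 i ∈ rl :=
  (mem_rl _).2 (Or.inr (Or.inr (Or.inr (Or.inr ⟨i, rfl⟩))))

theorem dr_Z (n : ℕ) : Dr .Z (rz n) := by
  induction n with
  | zero => exact dr_rule (s := []) (m0 (by simp [rl0])) rfl
  | succ n ih =>
    exact dr_rule (s := [tz, nt .Z]) (m0 (by simp [rl0])) ⟨_, rfl, rz n, [], by simp, ih, rfl⟩

theorem dr_B (b : List Bk) : Dr .B (enc b) := by
  induction b with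
  | nil => exact dr_rule (s := []) (m0 (by simp [rl0])) rfl
  | cons x b ih =>
    exact dr_rule (s := [tt x.1, nt .Z, nt .B]) (m1 x.1 (by simp [rl1]))
      ⟨rz x.2 ++ enc b, by simp, rz x.2, enc b, rfl, dr_Z _, enc b, [], by simp, ih, rfl⟩

theorem dr_E {a : Lt} (ha : a ≠ .L) (c : ℕ) : ∀ c', c' ≠ c → Dr .E (rz c ++ some a :: rz c') := by
  induction c with
  | zero =>
    intro c' hc'
    obtain ⟨n, rfl⟩ : ∃ n, c' = n + 1 := ⟨c' - 1, by omega⟩
    exact dr_rule (s := [tt a, tz, nt .Z]) (m3 ha (by simp [rl3]))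
      ⟨none :: rz n, by rw [rz_succ]; rfl, rz n, rfl, rz n, [], by simp, dr_Z n, rfl⟩
  | succ c ih =>
    intro c' hc'
    cases c' with
    | zero =>
      exact dr_rule (s := [tz, nt .Z, tt a]) (m3 ha (by simp [rl3]))
        ⟨rz c ++ [some a], by rw [← rz_succ]; rfl, rz c, [some a], rfl, dr_Z c, [], rfl, rfl⟩
    | succ c' =>
      refine dr_rule (s := [tz, nt .E, tz]) (m0 (by simp [rl0]))
        ⟨rz c ++ some a :: rz (c' + 1), by rw [← rz_succ c]; rfl, rz c ++ some a :: rz c', [none],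
          ?_, ih c' (by omega), [], rfl, rfl⟩
      rw [← rz_succ']
      simp

theorem dr_D (a : Lt) (c : ℕ) : ∀ c', c' ≠ 2 * c + 1 → Dr .D (rz c ++ some a :: rz c') := by
  induction c with
  | zero =>
    intro c' hc'
    by_cases h0 : c' = 0
    · subst h0
      exact dr_rule (s := [tt a]) (m1 a (by simp [rl1])) ⟨[], rfl, rfl⟩
    · obtain ⟨n, rfl⟩ : ∃ n, c' = n + 1 + 1 := ⟨c' - 2, by omega⟩
      exact dr_rule (s := [tt a, tz, tz, nt .Z]) (m1 a (by simp [rl1]))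
        ⟨rz (n + 1 + 1), rfl, rz (n + 1), by rw [rz_succ], rz n, by rw [rz_succ],
          rz n, [], by simp, dr_Z n, rfl⟩
  | succ c ih =>
    intro c' hc'
    by_cases h0 : c' = 0
    · subst h0
      exact dr_rule (s := [tz, nt .Z, tt a]) (m1 a (by simp [rl1]))
        ⟨rz c ++ [some a], by rw [← rz_succ]; rfl, rz c, [some a], rfl, dr_Z c, [], rfl, rfl⟩
    · by_cases h1 : c' = 1
      · subst h1
        exact dr_rule (s := [tz, nt .Z, tt a, tz]) (m1 a (by simp [rl1]))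
          ⟨rz c ++ [some a, none], by rw [← rz_succ]; rfl, rz c, [some a, none], rfl, dr_Z c,
            [none], rfl, [], rfl, rfl⟩
      · obtain ⟨n, rfl⟩ : ∃ n, c' = n + 1 + 1 := ⟨c' - 2, by omega⟩
        refine dr_rule (s := [tz, nt .D, tz, tz]) (m0 (by simp [rl0]))
          ⟨rz c ++ some a :: rz (n + 1 + 1), by rw [← rz_succ c]; rfl, rz c ++ some a :: rz n,
            [none, none], ?_, ih n (by omega), [none], rfl, [], rfl, rfl⟩
        rw [← rz_succ' (n + 1), ← rz_succ']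
        simp

theorem dr_F (c' : ℕ) : ∀ c, c ≠ 2 * c' + 1 → Dr .F (rz c ++ some .L :: rz c') := by
  induction c' with
  | zero =>
    intro c hc
    by_cases h0 : c = 0
    · subst h0
      exact dr_rule (s := [tt .L]) (m0 (by simp [rl0])) ⟨[], rfl, rfl⟩
    · obtain ⟨n, rfl⟩ : ∃ n, c = n + 1 + 1 := ⟨c - 2, by omega⟩
      exact dr_rule (s := [tz, tz, nt .Z, tt .L]) (m0 (by simp [rl0]))
        ⟨rz (n + 1) ++ [some .L], by rw [← rz_succ (n + 1)]; rfl,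
          rz n ++ [some .L], by rw [← rz_succ n]; rfl, rz n, [some .L], rfl, dr_Z n, [], rfl, rfl⟩
  | succ c' ih =>
    intro c hc
    by_cases h0 : c = 0
    · subst h0
      exact dr_rule (s := [tt .L, tz, nt .Z]) (m0 (by simp [rl0]))
        ⟨rz (c' + 1), rfl, rz c', by rw [rz_succ], rz c', [], by simp, dr_Z c', rfl⟩
    · by_cases h1 : c = 1
      · subst h1
        exact dr_rule (s := [tz, tt .L, tz, nt .Z]) (m0 (by simp [rl0]))
          ⟨some .L :: rz (c' + 1), rfl, rz (c' + 1), rfl, rz c', by rw [rz_succ],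
            rz c', [], by simp, dr_Z c', rfl⟩
      · obtain ⟨n, rfl⟩ : ∃ n, c = n + 1 + 1 := ⟨c - 2, by omega⟩
        refine dr_rule (s := [tz, tz, nt .F, tz]) (m0 (by simp [rl0]))
          ⟨rz (n + 1) ++ some .L :: rz (c' + 1), by rw [← rz_succ (n + 1)]; rfl,
            rz n ++ some .L :: rz (c' + 1), by rw [← rz_succ n]; rfl,
            rz n ++ some .L :: rz c', [none], ?_, ih n (by omega), [], rfl, rfl⟩
        rw [← rz_succ' c']
        simp

theorem dr_K {s : List Lt} (hs : C s) : ∀ b : List Bk, b.map Prod.fst = s → Dr .K (enc b) := by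
  induction hs with
  | hash =>
    intro b hb
    obtain ⟨d, rfl⟩ := map_single hb
    exact dr_rule (s := [tt .H, nt .Z]) (m0 (by simp [rl0]))
      ⟨rz d, by simp, rz d, [], by simp, dr_Z d, rfl⟩
  | pair i w hw ih =>
    intro b hb
    obtain ⟨⟨a, c⟩, b0, rfl, ha, hb0⟩ := List.map_eq_cons_iff.1 hb
    have ha : a = .A i := ha
    subst ha
    obtain ⟨b1, b2, rfl, h1, h2⟩ := List.map_eq_append_iff.1 hb0
    obtain ⟨d, rfl⟩ := map_single h2
    exact dr_rule (s := [tt (.A i), nt .Z, nt .K, tt (.B i), nt .Z]) (m4 i)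
      ⟨rz c ++ (enc b1 ++ some (.B i) :: rz d), by simp, rz c, _, rfl, dr_Z c,
        enc b1, _, rfl, ih b1 h1, rz d, rfl, rz d, [], by simp, dr_Z d, rfl⟩
  | left u w hu hw ih1 ih2 =>
    intro b hb
    obtain ⟨⟨a, c⟩, b0, rfl, ha, hb0⟩ := List.map_eq_cons_iff.1 hb
    have ha : a = .O := ha
    subst ha
    obtain ⟨b1, b2, rfl, h1, h2⟩ := List.map_eq_append_iff.1 hb0
    obtain ⟨⟨a3, d⟩, b3, rfl, ha3, h3⟩ := List.map_eq_cons_iff.1 h2
    have ha3 : a3 = .L := ha3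
    subst ha3
    exact dr_rule (s := [tt .O, nt .Z, nt .K, tt .L, nt .Z, nt .K]) (m0 (by simp [rl0]))
      ⟨rz c ++ (enc b1 ++ some .L :: (rz d ++ enc b3)), by simp, rz c, _, rfl, dr_Z c,
        enc b1, _, rfl, ih1 b1 h1, rz d ++ enc b3, rfl, rz d, _, rfl, dr_Z d, enc b3, [],
        by simp, ih2 b3 h3, rfl⟩
  | right u w hu hw ih1 ih2 =>
    intro b hb
    obtain ⟨b0, b2, rfl, h0, h2⟩ := List.map_eq_append_iff.1 hb
    obtain ⟨⟨a, c⟩, b3, rfl, ha, h3⟩ := List.map_eq_cons_iff.1 h2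
    have ha : a = .O := ha
    subst ha
    obtain ⟨b1, b4, rfl, h1, h4⟩ := List.map_eq_append_iff.1 h3
    obtain ⟨d, rfl⟩ := map_single h4
    exact dr_rule (s := [nt .K, tt .O, nt .Z, nt .K, tt .L, nt .Z]) (m0 (by simp [rl0]))
      ⟨enc b0, some .O :: (rz c ++ (enc b1 ++ some .L :: rz d)), by simp, ih2 b0 h0, _, rfl,
        rz c, _, rfl, dr_Z c, enc b1, _, rfl, ih1 b1 h1, rz d, rfl, rz d, [], by simp,
        dr_Z d, rfl⟩

theorem lang_contextFree : Lang.IsContextFree := by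
  refine ⟨gr, ?_⟩
  ext w
  rw [ContextFreeGrammar.mem_language_iff]
  constructor
  · intro h
    have h1 := sound (g := gr) (I := In)
      (fun r hr w h => In_closed r ((mem_gr r).mp hr) w h) h
    obtain ⟨w1, w2, rfl, h2, h3⟩ := h1
    have h3' : w2 = [] := h3
    subst h3'
    rw [List.append_nil]
    exact h2
  · rintro ⟨b, rfl, hb⟩
    have : Dr .S (enc b) := by
      by_cases hch : b.IsChain Rel
      · have hC : C (b.map Prod.fst) := by
          rcases hb with hb | hb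
          · exact hb
          · exact absurd hch hb
        exact dr_rule (s := [nt .K]) (m0 (by simp [rl0])) ⟨enc b, [], by simp, dr_K hC b rfl, rfl⟩
      · obtain ⟨b1, ⟨a, c⟩, ⟨a', c'⟩, b2, rfl, hxy⟩ :
            ∃ b1 x y b2, b = b1 ++ x :: y :: b2 ∧ ¬ Rel x y := by
          clear hb
          induction b with
          | nil => exact absurd (by simp) hch
          | cons x b ih =>
            cases b with
            | nil => exact absurd (by simp) hch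
            | cons y b =>
              rw [chain_cons2] at hch
              by_cases hr : Rel x y
              · obtain ⟨b1, x', y', b2, e, h'⟩ := ih (fun h' => hch ⟨hr, h'⟩)
                exact ⟨x :: b1, x', y', b2, by rw [e]; rfl, h'⟩
              · exact ⟨[], x, y, b, rfl, hr⟩
        unfold Rel at hxy
        simp only at hxy
        split_ifs at hxy with h1 h2
        · subst h1
          exact dr_rule (s := [nt .B, tt .O, nt .D, nt .B]) (m0 (by simp [rl0]))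
            ⟨enc b1, some .O :: ((rz c ++ some a' :: rz c') ++ enc b2), by simp, dr_B b1,
              (rz c ++ some a' :: rz c') ++ enc b2, rfl,
              rz c ++ some a' :: rz c', enc b2, rfl, dr_D a' c c' hxy, enc b2, [], by simp,
              dr_B b2, rfl⟩
        · subst h2
          exact dr_rule (s := [nt .B, tt a, nt .F, nt .B]) (m2 h1 (by simp [rl2]))
            ⟨enc b1, some a :: ((rz c ++ some .L :: rz c') ++ enc b2), by simp, dr_B b1,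
              (rz c ++ some .L :: rz c') ++ enc b2, rfl,
              rz c ++ some .L :: rz c', enc b2, rfl, dr_F c' c hxy, enc b2, [], by simp,
              dr_B b2, rfl⟩
        · exact dr_rule (s := [nt .B, tt a, nt .E, nt .B]) (m2 h1 (by simp [rl2]))
            ⟨enc b1, some a :: ((rz c ++ some a' :: rz c') ++ enc b2), by simp, dr_B b1,
              (rz c ++ some a' :: rz c') ++ enc b2, rfl,
              rz c ++ some a' :: rz c', enc b2, rfl, dr_E h2 c c' hxy, enc b2, [], by simp,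
              dr_B b2, rfl⟩
    exact this

end Pool.Agent.Y552.Qr
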