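import Mathlib

set_option autoImplicit false

namespace Pool.Agent.Y552.Qr

/-- Linear languages: every right-hand side contains at most one nonterminal. -/
def IsLinear {T : Type} (L : Language T) : Prop :=
  ∃ g : ContextFreeGrammar T, g.language = L ∧ ∀ r ∈ g.rules,
    (∃ u : List T, r.output = u.map Symbol.terminal) ∨
    ∃ (u v : List T) (A : g.NT),
      r.output = u.map Symbol.terminal ++ Symbol.nonterminal A :: v.map Symbol.terminal

/-- The substitution `σ` applied to the language `L`. -/
def subst {X Y : Type} (L : Language X) (σ : X → Language Y) : Language Y :=
  {v | ∃ u ∈ L, v ∈ (u.map σ).prod}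

/-- Quasi-rational languages: the least family of languages over finite alphabets containing the
linear languages and closed under substitution. -/
inductive Qrt : (Y : Type) → Language Y → Prop
  | lin {Y : Type} [Finite Y] (L : Language Y) : IsLinear L → Qrt Y L
  | sub {X Y : Type} [Finite X] [Finite Y] (L : Language X) (σ : X → Language Y) :
      Qrt X L → (∀ x, Qrt Y (σ x)) → Qrt Y (subst L σ)

end Pool.Agent.Y552.Qr
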