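import Pool.Agent.Y552.Qr.Up
import Pool.Agent.Helper178.GramLfp
import Pool.Agent.Helper288.ConeTr

set_option autoImplicit false

/-!
A context-free language which is not in the cone of `Lang`.
-/

namespace Pool.Agent.Y552.Qr

open Symbol Pool.Agent.Helper178.Gram Pool.Agent.Helper288.Cone
open Pool.Agent.Helper178.Idx (Ch_add Run Run_append)

/-- Binary trees. -/
inductive E4 : List (Fin 4) → Prop
  | leaf : E4 [3]
  | node (u v : List (Fin 4)) : E4 u → E4 v → E4 (0 :: (u ++ 1 :: (v ++ [2])))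

/-- The language of binary trees. -/
def EL : Language (Fin 4) := {w | E4 w}

/-- The rules for binary trees. -/
def rlE : List (ContextFreeRule (Fin 4) Unit) :=
  [⟨(), [terminal 3]⟩, ⟨(), [terminal 0, nonterminal (), terminal 1, nonterminal (), terminal 2]⟩]

/-- The grammar of binary trees. -/
def gE : ContextFreeGrammar (Fin 4) where
  NT := Unit
  initial := ()
  rules := rlE.toFinset

theorem mem_gE (r : ContextFreeRule (Fin 4) Unit) : r ∈ gE.rules ↔ r ∈ rlE := by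
  show r ∈ rlE.toFinset ↔ _
  exact List.mem_toFinset

theorem EL_contextFree : EL.IsContextFree := by
  refine ⟨gE, ?_⟩
  ext w
  rw [ContextFreeGrammar.mem_language_iff]
  have hmem : ∀ r : ContextFreeRule (Fin 4) Unit, r ∈ gE.rules ↔ r = ⟨(), [terminal 3]⟩ ∨
      r = ⟨(), [terminal 0, nonterminal (), terminal 1, nonterminal (), terminal 2]⟩ := by
    intro r
    rw [mem_gE]
    simp [rlE]
  constructor
  · intro h
    have h1 := sound (g := gE) (I := fun _ w => E4 w) (by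
      intro r hr w hw
      rcases (hmem r).1 hr with rfl | rfl
      · obtain ⟨_, rfl, rfl⟩ := hw
        exact .leaf
      · obtain ⟨_, rfl, u, _, rfl, hu, _, rfl, v, _, rfl, hv, _, rfl, rfl⟩ := hw
        exact .node u v hu hv) h
    obtain ⟨w1, w2, rfl, h2, h3⟩ := h1
    have h3' : w2 = [] := h3
    subst h3'
    rw [List.append_nil]
    exact h2
  · intro h
    have : Der gE () w := by
      induction (show E4 w from h) with
      | leaf =>
        exact complete (g := gE) (r := ⟨(), [terminal 3]⟩) ((hmem _).2 (Or.inl rfl))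
          ⟨[], rfl, rfl⟩
      | node u v _ _ ih1 ih2 =>
        exact complete (g := gE) (r := ⟨(), [terminal 0, nonterminal (),
          terminal 1, nonterminal (), terminal 2]⟩) ((hmem _).2 (Or.inr rfl))
          ⟨_, rfl, u, _, rfl, ih1 ‹_›, _, rfl, v, _, rfl, ih2 ‹_›, [], rfl, rfl⟩
    exact this

/-- The depth automaton. -/
def Dst (H : ℕ) (i : Fin (H + 1)) (l : Fin 4) (j : Fin (H + 1)) : Prop :=
  (l = 0 ∧ (j : ℕ) = i + 1) ∨ (l = 1 ∧ j = i) ∨ (l = 2 ∧ (i : ℕ) = j + 1) ∨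
    (l = 3 ∧ j = i ∧ (i : ℕ) = H)

theorem E4_long {H : ℕ} {w : List (Fin 4)} (hw : E4 w) : ∀ i j : Fin (H + 1),
    Run (Dst H) i w j → j = i ∧ 2 ^ (H - i) ≤ w.length := by
  induction hw with
  | leaf =>
    rintro i j ⟨r, h, rfl⟩
    rcases h with h | h | h | h
    · exact absurd h.1 (by decide)
    · exact absurd h.1 (by decide)
    · exact absurd h.1 (by decide)
    · refine ⟨h.2.1, ?_⟩
      rw [h.2.2]
      simp
  | node u v _ _ ih1 ih2 =>
    rintro i j ⟨i1, h1, hr⟩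
    obtain ⟨i2, h2, i3, h3, hr⟩ := (Run_append _ _ _ _).mp hr
    obtain ⟨i4, h4, i5, h5, h6⟩ := (Run_append _ _ _ _).mp hr
    have h6 : i5 = j := h6
    subst h6
    obtain ⟨rfl, l1⟩ := ih1 _ _ h2
    obtain ⟨rfl, l2⟩ := ih2 _ _ h4
    have e1 : (i2 : ℕ) = i + 1 := by
      rcases h1 with h | h | h | h
      · exact h.2
      · exact absurd h.1 (by decide)
      · exact absurd h.1 (by decide)
      · exact absurd h.1 (by decide)
    have e3 : i4 = i2 := by
      rcases h3 with h | h | h | h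
      · exact absurd h.1 (by decide)
      · exact h.2
      · exact absurd h.1 (by decide)
      · exact absurd h.1 (by decide)
    subst e3
    have e5 : (i4 : ℕ) = i5 + 1 := by
      rcases h5 with h | h | h | h
      · exact absurd h.1 (by decide)
      · exact absurd h.1 (by decide)
      · exact h.2
      · exact absurd h.1 (by decide)
    refine ⟨Fin.ext (by omega), ?_⟩
    have hlt : (i4 : ℕ) < H + 1 := i4.2
    have e6 : 2 ^ (H - (i : ℕ)) = 2 ^ (H - (i4 : ℕ)) + 2 ^ (H - (i4 : ℕ)) := by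
      rw [show H - (i : ℕ) = (H - (i4 : ℕ)) + 1 by omega, pow_succ]
      ring
    simp only [List.length_cons, List.length_append, List.length_nil]
    omega

theorem E4_exists (H : ℕ) : ∀ (k : ℕ) (i : Fin (H + 1)), (i : ℕ) + k = H →
    ∃ w, E4 w ∧ Run (Dst H) i w i := by
  intro k
  induction k with
  | zero =>
    intro i hi
    exact ⟨[3], .leaf, i, Or.inr (Or.inr (Or.inr ⟨rfl, rfl, by omega⟩)), rfl⟩
  | succ k ih =>
    intro i hi
    obtain ⟨w, hw, hr⟩ := ih ⟨i + 1, by omega⟩ (by simp only; omega)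
    refine ⟨_, .node w w hw hw, ⟨i + 1, by omega⟩, Or.inl ⟨rfl, rfl⟩, ?_⟩
    refine (Run_append _ _ _ _).mpr ⟨_, hr, _, Or.inr (Or.inl ⟨rfl, rfl⟩), ?_⟩
    exact (Run_append _ _ _ _).mpr ⟨_, hr, _, Or.inr (Or.inr (Or.inl ⟨rfl, rfl⟩)), rfl⟩

/-! ### arithmetic -/

theorem Bd_le (N h : ℕ) (hN : 1 ≤ N) : Bd N h ≤ (8 * N ^ 3) ^ (h + 1) := by
  have h2 : N ≤ N ^ 3 := by
    calc N = N ^ 1 := (pow_one N).symm
      _ ≤ N ^ 3 := Nat.pow_le_pow_right hN (by norm_num)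
  have h3 : N ^ 2 ≤ N ^ 3 := Nat.pow_le_pow_right hN (by norm_num)
  have h4 : 1 ≤ N ^ 3 := Nat.one_le_pow _ _ hN
  induction h with
  | zero =>
    calc Bd N 0 = 2 * N ^ 3 + 2 * N ^ 2 + N + 1 := by rw [Bd]; ring
      _ ≤ 8 * N ^ 3 := by omega
      _ = _ := by ring
  | succ h ih =>
    have h1 : 1 ≤ (8 * N ^ 3) ^ (h + 1) := Nat.one_le_pow _ _ (by positivity)
    have h5 : N ^ 3 ≤ N ^ 3 * (8 * N ^ 3) ^ (h + 1) := Nat.le_mul_of_pos_right _ h1
    calc Bd N (h + 1) = 2 * N ^ 3 + 2 * N ^ 2 + N + 1 + N ^ 2 * Bd N h := by rw [Bd]; ring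
      _ ≤ 2 * N ^ 3 + 2 * N ^ 2 + N + 1 + N ^ 3 * (8 * N ^ 3) ^ (h + 1) :=
        Nat.add_le_add (le_refl _) (Nat.mul_le_mul h3 ih)
      _ ≤ 8 * (N ^ 3 * (8 * N ^ 3) ^ (h + 1)) := by omega
      _ = (8 * N ^ 3) ^ (h + 1 + 1) := by ring

theorem UB_le {n l : ℕ} (hn : 1 ≤ n) (hl : Nat.log 2 n = l) :
    UB n * (2 * n + 1) ≤ 2 ^ (4 * (l + 2) ^ 2) := by
  have hlt : n < 2 ^ (l + 1) := by
    rw [← hl]
    exact Nat.lt_pow_succ_log_self (by norm_num) _
  have h1 : 8 * n ^ 3 ≤ 2 ^ (3 * (l + 2)) := by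
    have : n ^ 3 ≤ (2 ^ (l + 1)) ^ 3 := Nat.pow_le_pow_left hlt.le 3
    calc 8 * n ^ 3 ≤ 8 * (2 ^ (l + 1)) ^ 3 := Nat.mul_le_mul (by norm_num) this
      _ = 2 ^ (3 * (l + 2)) := by ring
  have h2 : Bd n (Nat.log 2 n + 1) ≤ 2 ^ (3 * (l + 2) ^ 2) := by
    calc Bd n (Nat.log 2 n + 1) ≤ (8 * n ^ 3) ^ (Nat.log 2 n + 1 + 1) := Bd_le n _ hn
      _ ≤ (2 ^ (3 * (l + 2))) ^ (l + 2) := by
        rw [hl]
        exact Nat.pow_le_pow_left h1 _
      _ = 2 ^ (3 * (l + 2) ^ 2) := by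
        rw [← pow_mul]
        congr 1
        ring
  have h3 : 2 * n ^ 2 + 4 * n + 2 ≤ 2 ^ (3 * (l + 2) ^ 2) := by
    calc 2 * n ^ 2 + 4 * n + 2 = 2 * (n + 1) ^ 2 := by ring
      _ ≤ 2 * (2 ^ (l + 1)) ^ 2 := Nat.mul_le_mul (le_refl _) (Nat.pow_le_pow_left hlt 2)
      _ = 2 ^ (2 * l + 3) := by ring
      _ ≤ 2 ^ (3 * (l + 2) ^ 2) := Nat.pow_le_pow_right (by norm_num) (by nlinarith)
  have h4 : UB n ≤ 2 ^ (3 * (l + 2) ^ 2 + 1) := by
    unfold UB
    rw [pow_succ 2 (3 * (l + 2) ^ 2)]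
    omega
  have h5 : 2 * n + 1 ≤ 2 ^ (l + 2) := by
    rw [pow_succ]
    omega
  calc UB n * (2 * n + 1) ≤ 2 ^ (3 * (l + 2) ^ 2 + 1) * 2 ^ (l + 2) := Nat.mul_le_mul h4 h5
    _ = 2 ^ (3 * (l + 2) ^ 2 + 1 + (l + 2)) := by rw [← pow_add]
    _ ≤ 2 ^ (4 * (l + 2) ^ 2) := Nat.pow_le_pow_right (by norm_num) (by nlinarith)

theorem arith (t : ℕ) : 4 * (2 * t + 23) ^ 2 + 1 < 2 ^ (t + 20) := by
  induction t with
  | zero => norm_num
  | succ t ih =>
    rw [show t + 1 + 20 = (t + 20) + 1 by ring, pow_succ 2 (t + 20)]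
    obtain ⟨x, hx⟩ : ∃ x, x = 2 ^ (t + 20) := ⟨_, rfl⟩
    rw [← hx] at ih ⊢
    nlinarith [Nat.zero_le (t * t)]

theorem exists_H (t : ℕ) (ht : 1 ≤ t) : ∃ H : ℕ,
    UB (t * (H + 1)) * (2 * (t * (H + 1)) + 1) < 2 ^ H := by
  refine ⟨2 ^ (t + 20) - 1, ?_⟩
  have h0 : 1 ≤ 2 ^ (t + 20) := Nat.one_le_two_pow
  rw [Nat.sub_add_cancel h0]
  have hn : 1 ≤ t * 2 ^ (t + 20) := Nat.mul_pos ht h0
  refine (UB_le hn rfl).trans_lt (Nat.pow_lt_pow_right (by norm_num) ?_)
  have hl : Nat.log 2 (t * 2 ^ (t + 20)) < 2 * t + 21 := by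
    refine Nat.log_lt_of_lt_pow (by omega) ?_
    calc t * 2 ^ (t + 20) < 2 ^ t * 2 ^ (t + 20) :=
          Nat.mul_lt_mul_of_pos_right Nat.lt_two_pow_self h0
      _ = 2 ^ (2 * t + 20) := by rw [← pow_add]; congr 1; ring
      _ ≤ 2 ^ (2 * t + 21) := Nat.pow_le_pow_right (by norm_num) (by omega)
  have h1 : (Nat.log 2 (t * 2 ^ (t + 20)) + 2) ^ 2 ≤ (2 * t + 23) ^ 2 :=
    Nat.pow_le_pow_left (by omega) 2
  have := arith t
  omega

/-! ### the transfer -/

section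

variable {Y : Type} (T : Tr Xa Y) {τ : Type} (D : τ → Y → τ → Prop)

/-- The product automaton. -/
def pst (s : T.σ × τ) (a : Xa) (t : T.σ × τ) : Prop :=
  ∃ v, T.Run s.1 [a] v t.1 ∧ Run D s.2 v t.2

theorem split_in {p r : T.σ} {w : List Xa} {x : List Y} (h : T.Run p w x r) :
    ∀ u u', w = u ++ u' → ∃ q x1 x2, x = x1 ++ x2 ∧ T.Run p u x1 q ∧ T.Run q u' x2 r := by
  induction h with
  | nil p =>
    intro u u' h
    have h1 : u = [] := by
      rcases u with _ | ⟨a, u⟩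
      · rfl
      · simp at h
    subst h1
    have h2 : u' = [] := by simpa using h.symm
    subst h2
    exact ⟨p, [], [], rfl, Tr.Run.nil p, Tr.Run.nil p⟩
  | @cons p q r x y w v hs hr ih =>
    intro u u' h
    cases x with
    | none =>
      obtain ⟨q', x1, x2, rfl, h1, h2⟩ := ih u u' (by simpa using h)
      refine ⟨q', y.toList ++ x1, x2, by simp, ?_, h2⟩
      exact Tr.Run.cons hs h1
    | some x =>
      rcases u with _ | ⟨a, u⟩
      · refine ⟨p, [], y.toList ++ v, rfl, Tr.Run.nil p, ?_⟩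
        have := Tr.Run.cons hs hr
        rw [h] at this
        simpa using this
      · have h' : x :: w = a :: (u ++ u') := by simpa using h
        obtain ⟨rfl, h''⟩ := List.cons.inj h'
        obtain ⟨q', x1, x2, rfl, h1, h2⟩ := ih u u' h''
        refine ⟨q', y.toList ++ x1, x2, by simp, ?_, h2⟩
        exact Tr.Run.cons hs h1

theorem run_pst (u : List Xa) : ∀ (a : Xa) (p q : T.σ) (i j : τ) (v : List Y),
    T.Run p (a :: u) v q → Run D i v j → Run (pst T D) (p, i) (a :: u) (q, j) := by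
  induction u with
  | nil =>
    intro a p q i j v h1 h2
    exact ⟨(q, j), ⟨v, h1, h2⟩, rfl⟩
  | cons b u ih =>
    intro a p q i j v h1 h2
    obtain ⟨r, v1, v2, rfl, h3, h4⟩ := split_in T h1 [a] (b :: u) rfl
    obtain ⟨k, h5, h6⟩ := (Run_append _ _ _ _).mp h2
    exact ⟨(r, k), ⟨v1, h3, h5⟩, ih b r q k j v2 h4 h6⟩

theorem empty_chain {p q : T.σ} {u : List Xa} {v : List Y} (h : T.Run p u v q) :
    u = [] → ∀ i j : τ, Run D i v j → ∃ k, Chn (fun s t : T.σ × τ => ∃ y : Option Y,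
      T.step s.1 none y t.1 ∧ Run D s.2 y.toList t.2) k (p, i) (q, j) := by
  induction h with
  | nil p =>
    intro _ i j h
    have h : i = j := h
    subst h
    exact ⟨0, rfl⟩
  | @cons p q r x y u v hs hr ih =>
    intro hu i j h
    obtain ⟨rfl, rfl⟩ : x = none ∧ u = [] := by
      cases x with
      | none => exact ⟨rfl, by simpa using hu⟩
      | some x => simp at hu
    obtain ⟨k, h1, h2⟩ := (Run_append _ _ _ _).mp h
    obtain ⟨m, hm⟩ := ih rfl k j h2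
    exact ⟨m + 1, (q, k), ⟨y, hs, h1⟩, hm⟩

theorem chain_empty (k : ℕ) : ∀ (s t : T.σ × τ), Chn (fun s t : T.σ × τ => ∃ y : Option Y,
      T.step s.1 none y t.1 ∧ Run D s.2 y.toList t.2) k s t →
    ∃ v, T.Run s.1 [] v t.1 ∧ Run D s.2 v t.2 ∧ v.length ≤ k := by
  induction k with
  | zero =>
    intro s t h
    have h : s = t := h
    subst h
    exact ⟨[], Tr.Run.nil _, rfl, le_refl _⟩
  | succ k ih =>
    rintro s t ⟨r, ⟨y, h1, h2⟩, h3⟩
    obtain ⟨v, h4, h5, h6⟩ := ih r t h3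
    refine ⟨y.toList ++ v, ?_, (Run_append _ _ _ _).mpr ⟨r.2, h2, h5⟩, ?_⟩
    · have := Tr.Run.cons h1 h4
      simpa using this
    · rw [List.length_append]
      have : y.toList.length ≤ 1 := by cases y <;> simp
      omega

variable [Fintype T.σ] [Fintype τ]

theorem empty_short {p q : T.σ} {v : List Y} {i j : τ} (h : T.Run p [] v q) (h' : Run D i v j) :
    ∃ v', T.Run p [] v' q ∧ Run D i v' j ∧ v'.length ≤ Fintype.card (T.σ × τ) := by
  obtain ⟨k, hk⟩ := empty_chain T D h rfl i j h'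
  obtain ⟨k', h1, _, h2⟩ := Pool.Agent.Helper178.Idx.Ch_short _ hk
  obtain ⟨v', h3, h4, h5⟩ := chain_empty T D k' _ _ h2
  exact ⟨v', h3, h4, by omega⟩

omit [Fintype T.σ] [Fintype τ] in
theorem first_letter {p q : T.σ} {u : List Xa} {v : List Y} (h : T.Run p u v q) :
    ∀ (a : Xa) (u' : List Xa), u = a :: u' → ∃ p1 q1 y v1 v2, T.Run p [] v1 p1 ∧
      T.step p1 (some a) y q1 ∧ T.Run q1 u' v2 q ∧ v = v1 ++ (y.toList ++ v2) := by
  induction h with
  | nil p => intro a u' h; simp at h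
  | @cons p q r x y u v hs hr ih =>
    intro a u' h
    cases x with
    | none =>
      obtain ⟨p1, q1, y', v1, v2, h1, h2, h3, rfl⟩ := ih a u' (by simpa using h)
      refine ⟨p1, q1, y', y.toList ++ v1, v2, ?_, h2, h3, by simp⟩
      have := Tr.Run.cons hs h1
      simpa using this
    | some x =>
      have h' : x :: u = a :: u' := by simpa using h
      obtain ⟨rfl, rfl⟩ := List.cons.inj h'
      exact ⟨p, q, y, [], v, Tr.Run.nil _, hs, hr, rfl⟩

theorem pst_short {s t : T.σ × τ} {a : Xa} (h : pst T D s a t) :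
    ∃ v, T.Run s.1 [a] v t.1 ∧ Run D s.2 v t.2 ∧ v.length ≤ 2 * Fintype.card (T.σ × τ) + 1 := by
  obtain ⟨v, h1, h2⟩ := h
  obtain ⟨p1, q1, y, v1, v2, h3, h4, h5, rfl⟩ := first_letter T h1 a [] rfl
  obtain ⟨i1, h6, h7⟩ := (Run_append _ _ _ _).mp h2
  obtain ⟨i2, h8, h9⟩ := (Run_append _ _ _ _).mp h7
  obtain ⟨v1', g1, g2, g3⟩ := empty_short T D h3 h6
  obtain ⟨v2', g4, g5, g6⟩ := empty_short T D h5 h9
  refine ⟨v1' ++ (y.toList ++ v2'), ?_, (Run_append _ _ _ _).mpr ⟨i1, g2,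
    (Run_append _ _ _ _).mpr ⟨i2, h8, g5⟩⟩, ?_⟩
  · have := g1.trans (Tr.Run.cons h4 g4)
    simpa using this
  · simp only [List.length_append]
    have : y.toList.length ≤ 1 := by cases y <;> simp
    omega

theorem pst_run (w : List Xa) : ∀ (s t : T.σ × τ), Run (pst T D) s w t →
    ∃ v, T.Run s.1 w v t.1 ∧ Run D s.2 v t.2 ∧
      v.length ≤ w.length * (2 * Fintype.card (T.σ × τ) + 1) := by
  induction w with
  | nil =>
    intro s t h
    have h : s = t := h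
    subst h
    exact ⟨[], Tr.Run.nil _, rfl, by simp⟩
  | cons a w ih =>
    rintro s t ⟨r, h1, h2⟩
    obtain ⟨v1, g1, g2, g3⟩ := pst_short T D h1
    obtain ⟨v2, g4, g5, g6⟩ := ih r t h2
    refine ⟨v1 ++ v2, ?_, (Run_append _ _ _ _).mpr ⟨r.2, g2, g5⟩, ?_⟩
    · have := g1.trans g4
      simpa using this
    · rw [List.length_append, List.length_cons]
      calc v1.length + v2.length ≤ (2 * Fintype.card (T.σ × τ) + 1) +
            w.length * (2 * Fintype.card (T.σ × τ) + 1) := Nat.add_le_add g3 g6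
        _ = (w.length + 1) * (2 * Fintype.card (T.σ × τ) + 1) := by ring

end

theorem not_nil_mem : [] ∉ Lang := by
  rintro ⟨b, hb, h⟩
  cases b with
  | nil =>
    rcases h with h | h
    · obtain ⟨a, t, e, _⟩ := C_first h
      simp at e
    · exact h (by simp)
  | cons x b => simp at hb

theorem EL_not_inCone : ¬ InCone Lang EL := by
  intro h
  obtain ⟨T, hT⟩ := h.exists_tr
  have := T.fin
  have hne : 1 ≤ Fintype.card T.σ := by
    obtain ⟨u, _, p, _⟩ := (hT [3]).1 E4.leaf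
    exact Fintype.card_pos_iff.mpr ⟨p⟩
  obtain ⟨H, hH⟩ := exists_H (Fintype.card T.σ) hne
  obtain ⟨v0, hv0, hr0⟩ := E4_exists H H 0 (by simp)
  obtain ⟨u0, hu0, p0, q0, hp0, hq0, hrun⟩ := (hT v0).1 hv0
  have hcard : Fintype.card (T.σ × Fin (H + 1)) = Fintype.card T.σ * (H + 1) := by
    rw [Fintype.card_prod, Fintype.card_fin]
  obtain ⟨a, u1, rfl⟩ : ∃ a u1, u0 = a :: u1 := by
    cases u0 with
    | nil => exact absurd hu0 not_nil_mem
    | cons a u1 => exact ⟨a, u1, rfl⟩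
  have h1 := run_pst T (Dst H) u1 a p0 q0 0 0 v0 hrun hr0
  obtain ⟨w', hw', h2, h3⟩ := upper hu0 h1
  obtain ⟨v, h4, h5, h6⟩ := pst_run T (Dst H) w' _ _ h2
  have h7 : E4 v := (hT v).2 ⟨w', hw', p0, q0, hp0, hq0, h4⟩
  have h8 := (E4_long h7 0 0 h5).2
  rw [hcard] at h3 h6
  have h9 := Nat.mul_le_mul h3 (le_refl (2 * (Fintype.card T.σ * (H + 1)) + 1))
  have h10 : (2 : ℕ) ^ (H - ((0 : Fin (H + 1)) : ℕ)) = 2 ^ H := by simp
  rw [h10] at h8
  omega

end Pool.Agent.Y552.Qr
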