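import Pool.Agent.Y552.Qr.Sub
import Pool.Agent.Y552.Qr.CF
import Pool.Agent.Y552.Qr.Low

set_option autoImplicit false

/-!
Every quasi-rational language is in the cone of `Lang`.
-/

namespace Pool.Agent.Y552.Qr

open Symbol Pool.Agent.Helper178.Gram Pool.Agent.Helper288.Cone

/-- Ranks. -/
inductive Rk : ℕ → (Y : Type) → Language Y → Prop
  | one {Y : Type} (y : Y) : Rk 0 Y {[y]}
  | sub {k : ℕ} {X Y : Type} [Finite X] (L : Language X) (σ : X → Language Y) :
      IsLinear L → (∀ x, Rk k Y (σ x)) → Rk (k + 1) Y (subst L σ)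

theorem mem_subst {X Y : Type} (L : Language X) (σ : X → Language Y) (v : List Y) :
    v ∈ subst L σ ↔ ∃ u ∈ L, v ∈ (u.map σ).prod := Iff.rfl

theorem prod_subst {X Y Z : Type} (τ : X → Language Y) (σ : Y → Language Z) (u : List X) :
    ∀ v : List Z, v ∈ (u.map (fun x => subst (τ x) σ)).prod ↔
      ∃ w ∈ (u.map τ).prod, v ∈ (w.map σ).prod := by
  induction u with
  | nil =>
    intro v
    rw [prod_nil]
    constructor
    · rintro rfl
      exact ⟨[], (prod_nil τ _).2 rfl, (prod_nil σ _).2 rfl⟩
    · rintro ⟨w, hw, hv⟩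
      rw [prod_nil] at hw
      subst hw
      exact (prod_nil σ _).1 hv
  | cons x u ih =>
    intro v
    rw [prod_cons]
    constructor
    · rintro ⟨v1, v2, ⟨w1, hw1, h1⟩, h2, rfl⟩
      obtain ⟨w2, hw2, h3⟩ := (ih v2).1 h2
      exact ⟨w1 ++ w2, (prod_cons τ _ _ _).2 ⟨w1, w2, hw1, hw2, rfl⟩,
        (prod_append σ _ _ _).2 ⟨v1, v2, h1, h3, rfl⟩⟩
    · rintro ⟨w, hw, hv⟩
      obtain ⟨w1, w2, hw1, hw2, rfl⟩ := (prod_cons τ _ _ _).1 hw
      obtain ⟨v1, v2, h1, h3, rfl⟩ := (prod_append σ _ _ _).1 hv
      exact ⟨v1, v2, ⟨w1, hw1, h1⟩, (ih v2).2 ⟨w2, hw2, h3⟩, rfl⟩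

theorem subst_subst {X Y Z : Type} (L : Language X) (τ : X → Language Y) (σ : Y → Language Z) :
    subst (subst L τ) σ = subst L (fun x => subst (τ x) σ) := by
  ext v
  constructor
  · rintro ⟨w, ⟨u, hu, hw⟩, hv⟩
    exact ⟨u, hu, (prod_subst τ σ u v).2 ⟨w, hw, hv⟩⟩
  · rintro ⟨u, hu, hv⟩
    obtain ⟨w, hw, hv⟩ := (prod_subst τ σ u v).1 hv
    exact ⟨w, ⟨u, hu, hw⟩, hv⟩

theorem subst_single {X Y : Type} (x : X) (σ : X → Language Y) :
    subst ({[x]} : Language X) σ = σ x := by
  ext v
  rw [mem_subst]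
  constructor
  · rintro ⟨u, hu, hv⟩
    have hu : u = [x] := hu
    subst hu
    simpa using hv
  · intro hv
    exact ⟨[x], rfl, by simpa using hv⟩

theorem prod_singles {X : Type} (u : List X) : ∀ v : List X,
    v ∈ (u.map (fun x => ({[x]} : Language X))).prod ↔ v = u := by
  induction u with
  | nil => intro v; exact prod_nil _ v
  | cons x u ih =>
    intro v
    rw [prod_cons]
    constructor
    · rintro ⟨v1, v2, h1, h2, rfl⟩
      have h1 : v1 = [x] := h1
      rw [h1, (ih v2).1 h2]
      rfl
    · rintro rfl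
      exact ⟨[x], u, rfl, (ih u).2 rfl, rfl⟩

theorem subst_id {X : Type} (L : Language X) : subst L (fun x => {[x]}) = L := by
  ext v
  rw [mem_subst]
  constructor
  · rintro ⟨u, hu, hv⟩
    rw [prod_singles] at hv
    subst hv
    exact hu
  · intro hv
    exact ⟨v, hv, (prod_singles v v).2 rfl⟩

/-- The rule for a single letter. -/
def rlS : List (ContextFreeRule Unit Unit) := [⟨(), [terminal ()]⟩]

/-- The grammar for a single letter. -/
def gS : ContextFreeGrammar Unit where
  NT := Unit
  initial := ()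
  rules := rlS.toFinset

theorem mem_gS (r : ContextFreeRule Unit Unit) : r ∈ gS.rules ↔ r = ⟨(), [terminal ()]⟩ := by
  show r ∈ rlS.toFinset ↔ _
  rw [List.mem_toFinset]
  simp [rlS]

theorem linear_single : IsLinear ({[()]} : Language Unit) := by
  refine ⟨gS, ?_, ?_⟩
  · ext w
    rw [ContextFreeGrammar.mem_language_iff]
    constructor
    · intro h
      have h1 := sound (g := gS) (I := fun _ w => w = [()]) (by
        intro r hr w hw
        obtain rfl := (mem_gS r).1 hr
        obtain ⟨_, rfl, rfl⟩ := hw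
        rfl) h
      obtain ⟨w1, w2, rfl, h2, h3⟩ := h1
      have h3 : w2 = [] := h3
      have h2 : w1 = [()] := h2
      subst h3 h2
      rfl
    · intro h
      have h : w = [()] := h
      subst h
      exact complete (g := gS) (r := ⟨(), [terminal ()]⟩) ((mem_gS _).2 rfl) ⟨[], rfl, rfl⟩
  · intro r hr
    obtain rfl := (mem_gS r).1 hr
    exact Or.inl ⟨[()], rfl⟩

theorem Rk.up {k : ℕ} {Y : Type} {L : Language Y} (h : Rk k Y L) : Rk (k + 1) Y L := by
  have h1 := Rk.sub (k := k) ({[()]} : Language Unit) (fun _ => L) linear_single (fun _ => h)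
  rwa [subst_single] at h1

theorem Rk.mono {k : ℕ} {Y : Type} {L : Language Y} (h : Rk k Y L) {m : ℕ} (hm : k ≤ m) :
    Rk m Y L := by
  induction m, hm using Nat.le_induction with
  | base => exact h
  | succ m _ ih => exact ih.up

theorem Rk.subst {k : ℕ} {X : Type} {L : Language X} (h : Rk k X L) :
    ∀ {Y : Type} (m : ℕ) (σ : X → Language Y), (∀ x, Rk m Y (σ x)) →
      Rk (k + m) Y (Pool.Agent.Y552.Qr.subst L σ) := by
  induction h with
  | one x =>
    intro Y m σ hσ
    rw [subst_single, Nat.zero_add]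
    exact hσ x
  | @sub k X1 X _ L τ hL _ ih =>
    intro Y m σ hσ
    rw [subst_subst, show k + 1 + m = (k + m) + 1 by omega]
    exact Rk.sub L _ hL (fun x => ih x m σ hσ)

theorem Qrt.rank {Y : Type} {L : Language Y} (h : Qrt Y L) : ∃ k, Rk k Y L := by
  induction h with
  | @lin Y _ L hL =>
    refine ⟨1, ?_⟩
    have := Rk.sub (k := 0) L (fun y => ({[y]} : Language Y)) hL (fun y => .one y)
    rwa [subst_id] at this
  | @sub X Y _ _ L σ _ _ ih1 ih2 =>
    obtain ⟨k, hk⟩ := ih1
    choose m hm using ih2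
    have := Fintype.ofFinite X
    refine ⟨k + Finset.univ.sup m, hk.subst _ σ (fun x => (hm x).mono ?_)⟩
    exact Finset.le_sup (f := m) (Finset.mem_univ x)

/-- The transducer writing one letter. -/
def oneT {Z : Type} (z : Z) : Tr Bk Z where
  σ := Bool
  fin := inferInstance
  step := fun p x y q => (y = none ∧ p = q) ∨ (x = none ∧ y = some z ∧ p = false ∧ q = true)
  start := fun p => p = false
  acc := fun p => p = true

theorem oneT_run {Z : Type} (z : Z) {p q : (oneT z).σ} {u : List Bk} {v : List Z}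
    (h : (oneT z).Run p u v q) : (p = q ∧ v = []) ∨ (p = false ∧ q = true ∧ v = [z]) := by
  induction h with
  | nil p => exact Or.inl ⟨rfl, rfl⟩
  | @cons p q r x y u v hs _ ih =>
    rcases hs with ⟨rfl, rfl⟩ | ⟨rfl, rfl, rfl, rfl⟩
    · simpa using ih
    · rcases ih with ⟨rfl, rfl⟩ | ⟨h, _, _⟩
      · exact Or.inr ⟨rfl, rfl, rfl⟩
      · exact absurd h.symm Bool.false_ne_true

theorem oneT_id {Z : Type} (z : Z) (u : List Bk) : ∀ p : (oneT z).σ, (oneT z).Run p u [] p := by
  induction u with
  | nil => intro p; exact Tr.Run.nil _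
  | cons x u ih =>
    intro p
    exact Tr.Run.cons (T := oneT z) (x := some x) (y := none) (Or.inl ⟨rfl, rfl⟩) (ih p)

theorem rank_tr {k : ℕ} {Z : Type} {N : Language Z} (h : Rk k Z N) :
    ∀ c, ∃ T : Tr Bk Z, ∀ v, v ∈ N ↔ ∃ b, LC c k b ∧ T.rel b v := by
  induction h with
  | @one Z z =>
    intro c
    refine ⟨oneT z, fun v => ?_⟩
    constructor
    · intro hv
      have hv : v = [z] := hv
      subst hv
      refine ⟨_, .hash c 0, false, true, rfl, rfl, ?_⟩
      exact run_cons_out (oneT z) (p := false) (q := true) (Or.inr ⟨rfl, rfl, rfl, rfl⟩)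
        (oneT_id z _ true)
    · rintro ⟨b, _, p, q, hp, hq, hr⟩
      have hp : p = false := hp
      have hq : q = true := hq
      rcases oneT_run z hr with ⟨h, _⟩ | ⟨_, _, h⟩
      · rw [hp, hq] at h
        exact absurd h Bool.false_ne_true
      · exact h
  | @sub k X Z _ L σ hL _ ih =>
    intro c
    have := Fintype.ofFinite X
    choose S hS using fun x => ih x (2 * c + 1)
    exact step_tr L hL σ c k S hS

/-! ### restriction to finitely many codes -/

section

variable (n : ℕ)

/-- Blocks with a small code. -/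
abbrev Wn := Lt × Fin n

/-- The inclusion. -/
def emb (x : Wn n) : Bk := (x.1, x.2)

/-- The automaton checking the codes. -/
noncomputable def cM : DFA (Wn n) (Option (Option (Wn n))) := by
  classical
  exact
  { step := fun s x => match s with
      | none => none
      | some none => if (x.2 : ℕ) = 0 then some (some x) else none
      | some (some y) => if Rel (emb n y) (emb n x) then some (some x) else none
    start := some none
    accept := {s | s ≠ none} }

theorem cM_step_start (x : Wn n) : (x.2 : ℕ) = 0 → (cM n).step (some none) x = some (some x) := by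
  intro h
  simp [cM, h]

theorem cM_step_start' (x : Wn n) : (x.2 : ℕ) ≠ 0 → (cM n).step (some none) x = none := by
  intro h
  simp [cM, h]

theorem cM_step (y x : Wn n) : Rel (emb n y) (emb n x) →
    (cM n).step (some (some y)) x = some (some x) := by
  intro h
  simp [cM, h]

theorem cM_step' (y x : Wn n) : ¬ Rel (emb n y) (emb n x) →
    (cM n).step (some (some y)) x = none := by
  intro h
  simp [cM, h]

theorem cM_dead (z : List (Wn n)) : (cM n).evalFrom none z = none := by
  induction z with
  | nil => rfl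
  | cons x z ih =>
    rw [DFA.evalFrom_cons]
    have : (cM n).step none x = none := rfl
    rw [this, ih]

theorem cM_cur (z : List (Wn n)) : ∀ y : Wn n, (cM n).evalFrom (some (some y)) z ≠ none ↔
    ((y :: z).map (emb n)).IsChain Rel := by
  induction z with
  | nil =>
    intro y
    simp
  | cons x z ih =>
    intro y
    rw [DFA.evalFrom_cons]
    by_cases h : Rel (emb n y) (emb n x)
    · rw [cM_step n y x h, ih x, List.map_cons, List.map_cons, List.map_cons, chain_cons2]
      exact ⟨fun h' => ⟨h, h'⟩, fun h' => h'.2⟩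
    · rw [cM_step' n y x h, cM_dead, List.map_cons, List.map_cons, chain_cons2]
      exact ⟨fun h' => absurd rfl h', fun h' => absurd h'.1 h⟩

theorem mem_cM (z : List (Wn n)) : z ∈ (cM n).accepts ↔ (z.map (emb n)).IsChain Rel ∧
    (z = [] ∨ ∃ a t, z.map (emb n) = (a, 0) :: t) := by
  rw [DFA.mem_accepts]
  change (cM n).evalFrom (some none) z ≠ none ↔ _
  cases z with
  | nil => simp
  | cons x z =>
    rw [DFA.evalFrom_cons]
    by_cases h : (x.2 : ℕ) = 0
    · rw [cM_step_start n x h, cM_cur]
      constructor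
      · intro h'
        refine ⟨h', Or.inr ⟨x.1, z.map (emb n), ?_⟩⟩
        rw [List.map_cons, emb, h]
      · rintro ⟨h', _⟩
        exact h'
    · rw [cM_step_start' n x h, cM_dead]
      constructor
      · intro h'
        exact absurd rfl h'
      · rintro ⟨_, h' | ⟨a, t, h'⟩⟩
        · simp at h'
        · rw [List.map_cons, List.cons.injEq, emb, Prod.mk.injEq] at h'
          exact absurd h'.1.2 h

theorem inCone_levels (k : ℕ) :
    InCone Lang ({w | LC 0 k (w.map (emb (2 ^ k)))} : Language (Wn (2 ^ k))) := by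
  refine ⟨Wn (2 ^ k), inferInstance, fun x => blk (emb _ x), fun x => [x], (cM (2 ^ k)).accepts,
    ⟨_, inferInstance, _, rfl⟩, ?_⟩
  have henc : ∀ z : List (Wn (2 ^ k)), z.flatMap (fun x => blk (emb _ x)) =
      enc (z.map (emb (2 ^ k))) := by
    intro z
    rw [enc, List.flatMap_map]
  ext v
  constructor
  · intro hv
    have hv : LC 0 k (v.map (emb (2 ^ k))) := hv
    refine ⟨v, (mem_cM _ _).2 ⟨hv.chain, Or.inr ?_⟩, ?_, by simp⟩
    · obtain ⟨a, t, h, _⟩ := hv.first
      exact ⟨a, t, h⟩
    · rw [henc]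
      exact ⟨_, rfl, Or.inl hv.toCh.toC⟩
  · rintro ⟨z, hz, h1, h2⟩
    have hz' : z = v := by simpa using h2
    subst hz'
    rw [henc] at h1
    obtain ⟨b, hb, h3⟩ := h1
    have hb := enc_inj _ _ hb
    subst hb
    obtain ⟨h4, h5⟩ := (mem_cM _ _).1 hz
    have h6 : C ((z.map (emb (2 ^ k))).map Prod.fst) := by
      rcases h3 with h3 | h3
      · exact h3
      · exact absurd h4 h3
    have h7 : ∃ a t, z.map (emb (2 ^ k)) = (a, 0) :: t := by
      rcases h5 with rfl | h5
      · obtain ⟨a, t, h, _⟩ := C_first h6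
        simp at h
      · exact h5
    refine toLC (n := 2 ^ k) h6 _ 0 k rfl h4 ?_ h7 (by simp)
    intro x hx
    obtain ⟨y, _, rfl⟩ := List.mem_map.1 hx
    exact y.2.2

/-- The transducer with its input alphabet restricted. -/
def resT {Z : Type} (T : Tr Bk Z) : Tr (Wn n) Z where
  σ := T.σ
  fin := T.fin
  step := fun p x y q => T.step p (x.map (emb n)) y q
  start := T.start
  acc := T.acc

theorem resT_run {Z : Type} (T : Tr Bk Z) {p q : (resT n T).σ} {u : List (Wn n)} {v : List Z}
    (h : (resT n T).Run p u v q) : T.Run p (u.map (emb n)) v q := by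
  induction h with
  | nil p => exact Tr.Run.nil (T := T) _
  | @cons p q r x y u v hs _ ih =>
    have := Tr.Run.cons (T := T) (p := p) (q := q) (x := x.map (emb n)) (y := y) hs ih
    cases x <;> simpa using this

theorem resT_run' {Z : Type} (T : Tr Bk Z) {p q : T.σ} {b : List Bk} {v : List Z}
    (h : T.Run p b v q) : ∀ u : List (Wn n), b = u.map (emb n) → (resT n T).Run p u v q := by
  induction h with
  | nil p =>
    intro u hu
    have : u = [] := by simpa using hu.symm
    subst this
    exact Tr.Run.nil (T := resT n T) p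
  | @cons p q r x y b v hs _ ih =>
    intro u hu
    cases x with
    | none =>
      have := ih u (by simpa using hu)
      exact Tr.Run.cons (T := resT n T) (p := p) (q := q) (x := none) (y := y) hs this
    | some x =>
      cases u with
      | nil => simp at hu
      | cons w u =>
        have hu' : x = emb n w ∧ b = u.map (emb n) := by simpa using hu
        obtain ⟨rfl, rfl⟩ := hu'
        exact Tr.Run.cons (T := resT n T) (p := p) (q := q) (x := some w) (y := y) hs (ih u rfl)

end

theorem qrt_inCone {Y : Type} [Fintype Y] (N : Language Y) (hN : Qrt Y N) : InCone Lang N := by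
  obtain ⟨k, hk⟩ := hN.rank
  obtain ⟨T, hT⟩ := rank_tr hk 0
  refine InCone.trans (inCone_levels k) (InCone_of_tr _ (resT (2 ^ k) T) N fun v => ?_)
  rw [hT]
  constructor
  · rintro ⟨b, hb, p, q, hp, hq, hr⟩
    have h1 : ∀ b : List Bk, (∀ x ∈ b, x.2 < 2 ^ k) → ∃ u : List (Wn (2 ^ k)),
        b = u.map (emb (2 ^ k)) := by
      intro b
      induction b with
      | nil => intro _; exact ⟨[], rfl⟩
      | cons x b ih =>
        intro h
        obtain ⟨u, rfl⟩ := ih (fun x hx => h x (List.mem_cons_of_mem _ hx))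
        exact ⟨(x.1, ⟨x.2, h x List.mem_cons_self⟩) :: u, rfl⟩
    obtain ⟨u, rfl⟩ := h1 b (fun x hx => by
      have := (hb.codes x hx).2
      omega)
    exact ⟨u, hb, p, q, hp, hq, resT_run' _ T hr u rfl⟩
  · rintro ⟨u, hu, p, q, hp, hq, hr⟩
    exact ⟨u.map (emb (2 ^ k)), hu, p, q, hp, hq, resT_run _ T hr⟩

end Pool.Agent.Y552.Qr
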