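import Pool.Agent.Y552.Qr.Lin

set_option autoImplicit false

/-!
Substitution into linear languages.
-/

namespace Pool.Agent.Y552.Qr

open Pool.Agent.Helper288.Cone

/-! ### runs -/

theorem run_split {X Y : Type} (T : Tr X Y) {p r : T.σ} {w : List X} {x : List Y}
    (h : T.Run p w x r) : ∀ u u', w = u ++ u' →
      ∃ q x1 x2, T.Run p u x1 q ∧ T.Run q u' x2 r ∧ x = x1 ++ x2 := by
  induction h with
  | nil p =>
    intro u u' h
    obtain ⟨rfl, rfl⟩ := List.append_eq_nil_iff.1 h.symm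
    exact ⟨p, [], [], Tr.Run.nil p, Tr.Run.nil p, rfl⟩
  | @cons p q r x y w v hs hr ih =>
    intro u u' h
    cases x with
    | none =>
      obtain ⟨q', x1, x2, h1, h2, rfl⟩ := ih u u' (by simpa using h)
      refine ⟨q', y.toList ++ x1, x2, ?_, h2, by simp⟩
      exact Tr.Run.cons hs h1
    | some x =>
      rcases u with _ | ⟨a, u⟩
      · refine ⟨p, [], y.toList ++ v, Tr.Run.nil p, ?_, rfl⟩
        have := Tr.Run.cons hs hr
        rw [h] at this
        simpa using this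
      · have h' : x :: w = a :: (u ++ u') := by simpa using h
        obtain ⟨rfl, h''⟩ := List.cons.inj h'
        obtain ⟨q', x1, x2, h1, h2, rfl⟩ := ih u u' h''
        refine ⟨q', y.toList ++ x1, x2, ?_, h2, by simp⟩
        exact Tr.Run.cons hs h1

theorem run_first {X Y : Type} (T : Tr X Y) {p q : T.σ} {u : List X} {v : List Y}
    (h : T.Run p u v q) : ∀ (a : X) (u' : List X), u = a :: u' →
      ∃ p1 q1 y v1 v2, T.Run p [] v1 p1 ∧ T.step p1 (some a) y q1 ∧ T.Run q1 u' v2 q ∧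
        v = v1 ++ (y.toList ++ v2) := by
  induction h with
  | nil p => intro a u' h; simp at h
  | @cons p q r x y u v hs hr ih =>
    intro a u' h
    cases x with
    | none =>
      obtain ⟨p1, q1, y', v1, v2, h1, h2, h3, rfl⟩ := ih a u' (by simpa using h)
      refine ⟨p1, q1, y', y.toList ++ v1, v2, ?_, h2, h3, by simp⟩
      have := Tr.Run.cons hs h1
      simpa using this
    | some x =>
      have h' : x :: u = a :: u' := by simpa using h
      obtain ⟨rfl, rfl⟩ := List.cons.inj h'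
      exact ⟨p, q, y, [], v, Tr.Run.nil _, hs, hr, rfl⟩

theorem run_cons_in {X Y : Type} (T : Tr X Y) {p q r : T.σ} {a : X} {u : List X} {v : List Y}
    (hs : T.step p (some a) none q) (h : T.Run q u v r) : T.Run p (a :: u) v r := by
  have := Tr.Run.cons hs h
  simpa using this

theorem run_cons_out {X Y : Type} (T : Tr X Y) {p q r : T.σ} {a : Y} {u : List X} {v : List Y}
    (hs : T.step p none (some a) q) (h : T.Run q u v r) : T.Run p u (a :: v) r := by
  have := Tr.Run.cons hs h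
  simpa using this

theorem run_cons_sil {X Y : Type} (T : Tr X Y) {p q r : T.σ} {u : List X} {v : List Y}
    (hs : T.step p none none q) (h : T.Run q u v r) : T.Run p u v r := by
  have := Tr.Run.cons hs h
  simpa using this

/-! ### substitutions -/

theorem prod_nil {Y Z : Type} (σ : Y → Language Z) (v : List Z) :
    v ∈ (([] : List Y).map σ).prod ↔ v = [] := by
  rw [List.map_nil, List.prod_nil, Language.mem_one]

theorem prod_cons {Y Z : Type} (σ : Y → Language Z) (y : Y) (ys : List Y) (v : List Z) :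
    v ∈ ((y :: ys).map σ).prod ↔ ∃ v1 v2, v1 ∈ σ y ∧ v2 ∈ (ys.map σ).prod ∧ v = v1 ++ v2 := by
  rw [List.map_cons, List.prod_cons, Language.mem_mul]
  constructor
  · rintro ⟨v1, h1, v2, h2, rfl⟩; exact ⟨v1, v2, h1, h2, rfl⟩
  · rintro ⟨v1, v2, h1, h2, rfl⟩; exact ⟨v1, h1, v2, h2, rfl⟩

theorem prod_append {Y Z : Type} (σ : Y → Language Z) (ys zs : List Y) (v : List Z) :
    v ∈ ((ys ++ zs).map σ).prod ↔
      ∃ v1 v2, v1 ∈ (ys.map σ).prod ∧ v2 ∈ (zs.map σ).prod ∧ v = v1 ++ v2 := by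
  rw [List.map_append, List.prod_append, Language.mem_mul]
  constructor
  · rintro ⟨v1, h1, v2, h2, rfl⟩; exact ⟨v1, v2, h1, h2, rfl⟩
  · rintro ⟨v1, v2, h1, h2, rfl⟩; exact ⟨v1, h1, v2, h2, rfl⟩

section

variable {Y Z : Type} (T : Tr Lt Y) (c : ℕ) (S : Y → Tr Bk Z)

/-- States of the substituted transducer. -/
abbrev Sst := T.σ ⊕ (Σ y : Y, T.σ × (S y).σ)

/-- Steps of the substituted transducer. -/
inductive SStep : Sst T S → Option Bk → Option Z → Sst T S → Prop
  | sil (p q : T.σ) : T.step p none none q → SStep (.inl p) none none (.inl q)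
  | rd (p : T.σ) (a : Lt) (q : T.σ) : a ≠ .O → a ≠ .L → T.step p (some a) none q →
      SStep (.inl p) (some (a, c)) none (.inl q)
  | op (p : T.σ) (y : Y) (q : T.σ) (s : (S y).σ) : T.step p none (some y) q → (S y).start s →
      SStep (.inl p) (some (.O, c)) none (.inr ⟨y, q, s⟩)
  | mid (y : Y) (q : T.σ) (s : (S y).σ) (x : Option Bk) (z : Option Z) (s' : (S y).σ) :
      (∀ a, x ≠ some (a, c)) → (S y).step s x z s' → SStep (.inr ⟨y, q, s⟩) x z (.inr ⟨y, q, s'⟩)
  | cl (y : Y) (q : T.σ) (s : (S y).σ) : (S y).acc s →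
      SStep (.inr ⟨y, q, s⟩) (some (.L, c)) none (.inl q)

/-- The substituted transducer. -/
noncomputable def sT [Fintype Y] : Tr Bk Z where
  σ := Sst T S
  fin := by
    classical
    have := T.fin
    have := fun y => (S y).fin
    infer_instance
  step := SStep T c S
  start := fun p => ∃ p', p = .inl p' ∧ T.start p'
  acc := fun p => ∃ p', p = .inl p' ∧ T.acc p'

/-- Sequences of inserted words. -/
inductive Sd (k : ℕ) : List Bk → Prop
  | nil : Sd k []
  | cons (u b : List Bk) : LC (2 * c + 1) k u → Sd k b → Sd k ((.O, c) :: (u ++ (.L, c) :: b))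

variable {c} in
theorem Sd.left {k : ℕ} {b : List Bk} (hb : Sd c k b) {w : List Bk} (hw : LC c (k + 1) w) :
    LC c (k + 1) (b ++ w) := by
  induction hb with
  | nil => exact hw
  | cons u b hu _ ih => simpa using LC.left c k u _ hu ih

variable {c} in
theorem Sd.right {k : ℕ} {b : List Bk} (hb : Sd c k b) : ∀ {w : List Bk}, LC c (k + 1) w →
    LC c (k + 1) (w ++ b) := by
  induction hb with
  | nil => intro w hw; simpa using hw
  | cons u b hu _ ih =>
    intro w hw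
    simpa using ih (LC.right c k u w hu hw)

variable [Fintype Y] {T c S}

theorem sT_run_mid {y : Y} {q : T.σ} {s s' : (S y).σ} {u : List Bk} {v : List Z}
    (h : (S y).Run s u v s') : (∀ x ∈ u, x.2 ≠ c) →
      (sT T c S).Run (.inr ⟨y, q, s⟩) u v (.inr ⟨y, q, s'⟩) := by
  induction h with
  | nil s => intro _; exact Tr.Run.nil _
  | @cons s s1 s2 x z u v hs _ ih =>
    intro hu
    refine Tr.Run.cons (T := sT T c S) (p := .inr ⟨y, q, s⟩) (q := .inr ⟨y, q, s1⟩)
      (SStep.mid y q s x z s1 ?_ hs) (ih (fun x hx => hu x (List.mem_append_right _ hx)))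
    rintro a rfl
    exact hu (a, c) (by simp) rfl

theorem side (σ : Y → Language Z) {k : ℕ}
    (hS : ∀ y v, v ∈ σ y → ∃ b, LC (2 * c + 1) k b ∧ (S y).rel b v)
    {p q : T.σ} {u : List Lt} {ys : List Y} (h : T.Run p u ys q) : u = [] →
    ∀ v, v ∈ (ys.map σ).prod → ∃ b, Sd c k b ∧ (sT T c S).Run (.inl p) b v (.inl q) := by
  induction h with
  | nil p =>
    intro _ v hv
    rw [prod_nil] at hv
    subst hv
    exact ⟨[], .nil, Tr.Run.nil _⟩
  | @cons p q r x y u ys hs _ ih =>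
    intro hu v hv
    obtain ⟨rfl, rfl⟩ : x = none ∧ u = [] := by
      cases x with
      | none => exact ⟨rfl, by simpa using hu⟩
      | some x => simp at hu
    cases y with
    | none =>
      obtain ⟨b, h1, h2⟩ := ih rfl v hv
      exact ⟨b, h1, run_cons_sil (sT T c S) (SStep.sil p q hs) h2⟩
    | some y =>
      obtain ⟨v1, v2, h1, h2, rfl⟩ := (prod_cons σ y ys v).1 hv
      obtain ⟨b, h3, h4⟩ := ih rfl v2 h2
      obtain ⟨b1, h5, s, s', h6, h7, h8⟩ := hS y v1 h1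
      refine ⟨_, .cons b1 b h5 h3, ?_⟩
      have hc : ∀ x ∈ b1, x.2 ≠ c := fun x hx => by
        have := (h5.codes x hx).1
        omega
      exact run_cons_in (sT T c S) (SStep.op p y q s hs h6)
        ((sT_run_mid h8 hc).trans (run_cons_in (sT T c S) (SStep.cl y q s' h7) h4))

theorem sub_fwd (hT : Split T) (σ : Y → Language Z) {k : ℕ}
    (hS : ∀ y v, v ∈ σ y → ∃ b, LC (2 * c + 1) k b ∧ (S y).rel b v) {u : List Lt} (hu : PalP u) :
    ∀ (p q : T.σ) (ys : List Y) (v : List Z), T.Run p u ys q → v ∈ (ys.map σ).prod →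
    ∃ b, LC c (k + 1) b ∧ (sT T c S).Run (.inl p) b v (.inl q) := by
  have hsp : ∀ p a y q, T.step p (some a) y q → y = none := by
    intro p a y q h
    rcases hT _ _ _ _ h with h | h
    · simp at h
    · exact h
  induction hu with
  | hash =>
    intro p q ys v hr hv
    obtain ⟨p1, q1, y, ys1, ys2, h1, h2, h3, rfl⟩ := run_first T hr _ _ rfl
    obtain rfl := hsp _ _ _ _ h2
    obtain ⟨v1, v2, hv1, hv2, rfl⟩ := (prod_append σ _ _ _).1 hv
    obtain ⟨b1, g1, g2⟩ := side σ hS h1 rfl v1 hv1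
    obtain ⟨b2, g3, g4⟩ := side σ hS h3 rfl v2 hv2
    refine ⟨b1 ++ ([(.H, c)] ++ b2), g1.left (g3.right (.hash c (k + 1))), ?_⟩
    exact g2.trans (run_cons_in (sT T c S) (SStep.rd p1 .H q1 (by simp) (by simp) h2) g4)
  | pair i w hw ih =>
    intro p q ys v hr hv
    obtain ⟨p1, q1, y, ys1, ys2, h1, h2, h3, rfl⟩ := run_first T hr _ _ rfl
    obtain rfl := hsp _ _ _ _ h2
    obtain ⟨q2, ys3, ys4, h4, h5, rfl⟩ := run_split T h3 _ _ rfl
    obtain ⟨p3, q3, y, ys5, ys6, h6, h7, h8, rfl⟩ := run_first T h5 _ _ rfl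
    obtain rfl := hsp _ _ _ _ h7
    simp only [Option.toList_none, List.nil_append] at hv
    obtain ⟨v1, v2, hv1, hv2, rfl⟩ := (prod_append σ _ _ _).1 hv
    obtain ⟨v3, v4, hv3, hv4, rfl⟩ := (prod_append σ _ _ _).1 hv2
    obtain ⟨v5, v6, hv5, hv6, rfl⟩ := (prod_append σ _ _ _).1 hv4
    obtain ⟨b1, g1, g2⟩ := side σ hS h1 rfl v1 hv1
    obtain ⟨b3, g3, g4⟩ := ih _ _ _ v3 h4 hv3
    obtain ⟨b5, g5, g6⟩ := side σ hS h6 rfl v5 hv5
    obtain ⟨b6, g7, g8⟩ := side σ hS h8 rfl v6 hv6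
    refine ⟨b1 ++ ((.A i, c) :: ((b3 ++ b5) ++ [(.B i, c)]) ++ b6),
      g1.left (g7.right (.pair c (k + 1) i _ (g5.right g3))), ?_⟩
    have r1 := run_cons_in (sT T c S) (SStep.rd p3 (.B i) q3 (by simp) (by simp) h7) g8
    have r2 := run_cons_in (sT T c S) (SStep.rd p1 (.A i) q1 (by simp) (by simp) h2)
      (g4.trans (g6.trans r1))
    have r3 := g2.trans r2
    simpa using r3

/-! ### the converse -/

theorem inv_mid {t t' : (sT T c S).σ} {u : List Bk} {v : List Z} (h : (sT T c S).Run t u v t') :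
    (∀ x ∈ u, x.2 ≠ c) → ∀ (y : Y) (q : T.σ) (s : (S y).σ), t = .inr ⟨y, q, s⟩ →
      ∃ s', t' = .inr ⟨y, q, s'⟩ ∧ (S y).Run s u v s' := by
  induction h with
  | nil t => intro _ y q s h; exact ⟨s, h, Tr.Run.nil _⟩
  | @cons t t1 t2 x z u v hs _ ih =>
    rintro hu y q s rfl
    cases hs with
    | mid _ _ _ _ _ s1 h1 h2 =>
      obtain ⟨s', rfl, h3⟩ := ih (fun x hx => hu x (List.mem_append_right _ hx)) y q s1 rfl
      exact ⟨s', rfl, Tr.Run.cons h2 h3⟩
    | cl _ _ _ h1 => exact absurd rfl (hu (.L, c) (by simp))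

theorem inv_plain {t t' : (sT T c S).σ} {u : List Bk} {v : List Z} (h : (sT T c S).Run t u v t') :
    u = [] → ∀ p : T.σ, t = .inl p → ∃ p', t' = .inl p' ∧ T.Run p [] [] p' ∧ v = [] := by
  induction h with
  | nil t => intro _ p h; exact ⟨p, h, Tr.Run.nil _, rfl⟩
  | @cons t t1 t2 x z u v hs _ ih =>
    rintro hu p rfl
    cases hs with
    | sil _ q h1 =>
      obtain ⟨p', rfl, h2, rfl⟩ := ih (by simpa using hu) q rfl
      exact ⟨p', rfl, run_cons_sil T h1 h2, rfl⟩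
    | rd _ _ _ _ _ _ => simp at hu
    | op _ _ _ _ _ _ => simp at hu

/-- Reading an inserted word. -/
theorem inv_block (σ : Y → Language Z) {k : ℕ}
    (hS : ∀ y v, (∃ b, LC (2 * c + 1) k b ∧ (S y).rel b v) → v ∈ σ y)
    {p : T.σ} {t : (sT T c S).σ} {u rest : List Bk} {v : List Z} (hu : LC (2 * c + 1) k u)
    (h : (sT T c S).Run (.inl p) ((.O, c) :: (u ++ (.L, c) :: rest)) v t) :
    ∃ y q v1 v2, T.Run p [] [y] q ∧ v1 ∈ σ y ∧ (sT T c S).Run (.inl q) rest v2 t ∧
      v = v1 ++ v2 := by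
  obtain ⟨t1, t2, z, v1, v2, h1, h2, h3, rfl⟩ := run_first _ h _ _ rfl
  obtain ⟨p1, rfl, h4, rfl⟩ := inv_plain h1 rfl p rfl
  have h2' : SStep T c S (.inl p1) (some (.O, c)) z t2 := h2
  cases h2' with
  | rd _ _ _ ha _ _ => exact absurd rfl ha
  | op _ y q s h5 h6 =>
    obtain ⟨t3, v3, v4, h7, h8, rfl⟩ := run_split _ h3 _ _ rfl
    obtain ⟨s3, rfl, h9⟩ := inv_mid h7 (fun x hx => by
      have := (hu.codes x hx).1
      omega) y q s rfl
    obtain ⟨t4, t5, z', v5, v6, g1, g2, g3, rfl⟩ := run_first _ h8 _ _ rfl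
    obtain ⟨s4, rfl, g4⟩ := inv_mid g1 (by simp) y q s3 rfl
    have g2' : SStep T c S (.inr ⟨y, q, s4⟩) (some (.L, c)) z' t5 := g2
    cases g2' with
    | mid _ _ _ _ _ s1 h1 _ => exact absurd rfl (h1 .L)
    | cl _ _ _ g5 =>
      refine ⟨y, q, v3 ++ v5, v6, ?_, ?_, g3, by simp⟩
      · have := h4.trans (run_cons_out T h5 (Tr.Run.nil q))
        simpa using this
      · refine hS y _ ⟨u, hu, s, s4, h6, g5, ?_⟩
        have := h9.trans g4
        simpa using this

theorem sub_bwd (σ : Y → Language Z) {k : ℕ}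
    (hS : ∀ y v, (∃ b, LC (2 * c + 1) k b ∧ (S y).rel b v) → v ∈ σ y) {c' h : ℕ} {b : List Bk}
    (hb : LC c' h b) : c' = c → h = k + 1 → ∀ (rest : List Bk) (p : T.σ) (v : List Z)
      (t : (sT T c S).σ), (sT T c S).Run (.inl p) (b ++ rest) v t →
    ∃ q u ys v1 v2, PalP u ∧ T.Run p u ys q ∧ v1 ∈ (ys.map σ).prod ∧
      (sT T c S).Run (.inl q) rest v2 t ∧ v = v1 ++ v2 := by
  induction hb with
  | hash c' h =>
    rintro rfl rfl rest p v t hr
    obtain ⟨t1, t2, z, v1, v2, h1, h2, h3, rfl⟩ := run_first _ hr _ _ rfl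
    obtain ⟨p1, rfl, h4, rfl⟩ := inv_plain h1 rfl p rfl
    have h2' : SStep T c' S (.inl p1) (some (.H, c')) z t2 := h2
    cases h2' with
    | rd _ _ q _ _ h5 =>
      refine ⟨q, [.H], [], [], v2, .hash, ?_, (prod_nil σ _).2 rfl, h3, by simp⟩
      have := h4.trans (run_cons_in T h5 (Tr.Run.nil q))
      simpa using this
  | pair c' h i w hw ih =>
    rintro rfl rfl rest p v t hr
    obtain ⟨t1, t2, z, v1, v2, h1, h2, h3, rfl⟩ := run_first _ hr (.A i, c')
      (w ++ (.B i, c') :: rest) (by simp)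
    obtain ⟨p1, rfl, h4, rfl⟩ := inv_plain h1 rfl p rfl
    have h2' : SStep T c' S (.inl p1) (some (.A i, c')) z t2 := h2
    cases h2' with
    | rd _ _ q _ _ h5 =>
      obtain ⟨q1, u, ys, v3, v4, g1, g2, g3, g4, rfl⟩ := ih rfl rfl _ q v2 t h3
      obtain ⟨t3, t4, z', v5, v6, g5, g6, g7, rfl⟩ := run_first _ g4 _ _ rfl
      obtain ⟨p2, rfl, g8, rfl⟩ := inv_plain g5 rfl q1 rfl
      have g6' : SStep T c' S (.inl p2) (some (.B i, c')) z' t4 := g6
      cases g6' with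
      | rd _ _ q2 _ _ g9 =>
        refine ⟨q2, .A i :: (u ++ [.B i]), ys, v3, v6, .pair i u g1, ?_, g3, g7, by simp⟩
        have r1 := g2.trans (g8.trans (run_cons_in T g9 (Tr.Run.nil q2)))
        have r2 := h4.trans (run_cons_in T h5 r1)
        simpa using r2
  | left c' h u w hu hw ih1 ih2 =>
    rintro rfl hh rest p v t hr
    obtain rfl : h = k := by omega
    rw [List.cons_append, List.append_assoc, List.cons_append] at hr
    obtain ⟨y, q, v1, v2, h1, h2, h3, rfl⟩ := inv_block σ hS hu hr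
    obtain ⟨q1, u', ys, v3, v4, g1, g2, g3, g4, rfl⟩ := ih2 rfl rfl _ q v2 t h3
    refine ⟨q1, u', y :: ys, v1 ++ v3, v4, g1, ?_, (prod_cons σ _ _ _).2 ⟨v1, v3, h2, g3, rfl⟩,
      g4, by simp⟩
    have := h1.trans g2
    simpa using this
  | right c' h u w hu hw ih1 ih2 =>
    rintro rfl hh rest p v t hr
    obtain rfl : h = k := by omega
    rw [List.append_assoc, List.cons_append, List.append_assoc, List.cons_append,
      List.nil_append] at hr
    obtain ⟨q1, u', ys, v3, v4, g1, g2, g3, g4, rfl⟩ := ih2 rfl rfl _ p v t hr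
    obtain ⟨y, q, v1, v2, h1, h2, h3, rfl⟩ := inv_block σ hS hu g4
    refine ⟨q, u', ys ++ [y], v3 ++ v1, v2, g1, ?_, (prod_append σ _ _ _).2 ⟨v3, v1, g3, ?_, rfl⟩,
      h3, by simp⟩
    · have := g2.trans h1
      simpa using this
    · exact (prod_cons σ _ _ _).2 ⟨v1, [], h2, (prod_nil σ _).2 rfl, by simp⟩

end

theorem step_tr {Y Z : Type} [Fintype Y] (L : Language Y) (hL : IsLinear L)
    (σ : Y → Language Z) (c k : ℕ) (S : Y → Tr Bk Z)
    (hS : ∀ y v, v ∈ σ y ↔ ∃ b, LC (2 * c + 1) k b ∧ (S y).rel b v) :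
    ∃ T : Tr Bk Z, ∀ v, (∃ ys ∈ L, v ∈ (ys.map σ).prod) ↔ ∃ b, LC c (k + 1) b ∧ T.rel b v := by
  obtain ⟨T, hT, hLT⟩ := lin_tr L hL
  refine ⟨sT T c S, fun v => ?_⟩
  constructor
  · rintro ⟨ys, hys, hv⟩
    obtain ⟨u, hu, p, q, hp, hq, hr⟩ := (hLT ys).1 hys
    obtain ⟨b, h1, h2⟩ := sub_fwd hT σ (fun y v h => (hS y v).1 h) hu p q ys v hr hv
    exact ⟨b, h1, .inl p, .inl q, ⟨p, rfl, hp⟩, ⟨q, rfl, hq⟩, h2⟩
  · rintro ⟨b, hb, t, t', ⟨p, rfl, hp⟩, ⟨q, rfl, hq⟩, hr⟩
    obtain ⟨q1, u, ys, v1, v2, g1, g2, g3, g4, rfl⟩ := sub_bwd σ (fun y v h => (hS y v).2 h) hb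
      rfl rfl [] p v (.inl q) (by simpa using hr)
    obtain ⟨p', h1, h2, rfl⟩ := inv_plain g4 rfl q1 rfl
    obtain rfl := Sum.inl.inj h1
    refine ⟨ys, (hLT ys).2 ⟨u, g1, p, q, hp, hq, ?_⟩, by simpa using g3⟩
    have := g2.trans h2
    simpa using this

end Pool.Agent.Y552.Qr
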