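import Pool.Agent.Y552.Qr.Base
import Pool.Agent.Helper178.IdxUp

set_option autoImplicit false

/-!
Short words of `Lang` accepted by an automaton.
-/

namespace Pool.Agent.Y552.Qr

open Pool.Agent.Helper178.Idx (Ch_add Ch_pigeon Run Run_append Run_rep Run_short
  Run_block)

/-- chains of a relation -/
abbrev Chn {σ : Type} (E : σ → σ → Prop) := Pool.Agent.Helper178.Idx.Ch E

theorem Run_flatMap {σ α β : Type} {st : σ → α → σ → Prop} (f : β → List α) (b : List β) :
    ∀ p q : σ, Run st p (b.flatMap f) q ↔ Run (fun p x q => Run st p (f x) q) p b q := by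
  induction b with
  | nil => intro p q; exact Iff.rfl
  | cons x b ih =>
    intro p q
    rw [List.flatMap_cons, Run_append]
    constructor
    · rintro ⟨r, h1, h2⟩; exact ⟨r, h1, (ih r q).mp h2⟩
    · rintro ⟨r, h1, h2⟩; exact ⟨r, h1, (ih r q).mpr h2⟩

section

variable {σ : Type} (st : σ → Xa → σ → Prop)

/-- Runs over one block. -/
def Bs (p : σ) (x : Bk) (q : σ) : Prop := Run st p (blk x) q

variable {st}

theorem Run_enc (b : List Bk) (p q : σ) : Run st p (enc b) q ↔ Run (Bs st) p b q :=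
  Run_flatMap blk b p q

theorem Bs_iff (p : σ) (a : Lt) (c : ℕ) (q : σ) :
    Bs st p (a, c) q ↔ ∃ r, st p (some a) r ∧ Run st r (List.replicate c none) q := Iff.rfl

variable [Fintype σ]

theorem Bs_short {p q : σ} {a : Lt} {c : ℕ} (h : Bs st p (a, c) q) :
    ∃ c', c' < Fintype.card σ ∧ Bs st p (a, c') q := by
  obtain ⟨r, h1, h2⟩ := h
  obtain ⟨c', _, h3, _, h4⟩ := Run_block h2 0 (Nat.zero_le _)
  exact ⟨c', by omega, r, h1, h4⟩

theorem Bs_two {p q : σ} {a : Lt} {c : ℕ} (h : Bs st p (a, c) q) (hc : Fintype.card σ ≤ c) :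
    ∃ c1 c2, c1 ≠ c2 ∧ c1 ≤ 2 * Fintype.card σ ∧ c2 ≤ 2 * Fintype.card σ ∧
      Bs st p (a, c1) q ∧ Bs st p (a, c2) q := by
  obtain ⟨r, h1, h2⟩ := h
  obtain ⟨e, h3, h4, _, h5⟩ := Run_block h2 _ hc
  have h6 := (Run_rep _ _ _ _).mp h5
  obtain ⟨i, j, s, hij, hje, g1, _, _, g4⟩ := Ch_pigeon h6 h3
  refine ⟨i + (e - j), e, by omega, by omega, by omega, ⟨r, h1, ?_⟩, ⟨r, h1, h5⟩⟩
  exact (Run_rep _ _ _ _).mpr ((Ch_add _ _ _ _).mpr ⟨s, g1, g4⟩)

theorem Rel_inj_left {a : Lt} {c1 c2 : ℕ} {y : Bk} (h1 : Rel (a, c1) y) (h2 : Rel (a, c2) y) :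
    c1 = c2 := by
  unfold Rel at h1 h2
  simp only at h1 h2
  split_ifs at h1 h2 <;> omega

theorem Rel_inj_right {a : Lt} {c1 c2 : ℕ} {x : Bk} (h1 : Rel x (a, c1)) (h2 : Rel x (a, c2)) :
    c1 = c2 := by
  unfold Rel at h1 h2
  simp only at h1 h2
  split_ifs at h1 h2 <;> omega

theorem not_chain {b : List Bk} (h : ¬ b.IsChain Rel) :
    ∃ b1 x y b2, b = b1 ++ x :: y :: b2 ∧ ¬ Rel x y := by
  induction b with
  | nil => exact absurd (by simp) h
  | cons x b ih =>
    cases b with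
    | nil => exact absurd (by simp) h
    | cons y b =>
      rw [chain_cons2] at h
      by_cases hr : Rel x y
      · obtain ⟨b1, x', y', b2, e, h'⟩ := ih (fun h' => h ⟨hr, h'⟩)
        exact ⟨x :: b1, x', y', b2, by rw [e]; rfl, h'⟩
      · exact ⟨[], x, y, b, rfl, hr⟩

theorem chain_violation {b1 b2 : List Bk} {x y : Bk} (h : ¬ Rel x y) :
    ¬ (b1 ++ x :: y :: b2).IsChain Rel := by
  rw [List.isChain_append_cons_cons]
  exact fun h' => h h'.2.1

/-- Any run over blocks may be shortened. -/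
theorem blocks_short {p q : σ} {b : List Bk} (h : Run (Bs st) p b q) :
    ∃ b', Run (Bs st) p b' q ∧ (enc b').length ≤ Fintype.card σ * Fintype.card σ := by
  set N := Fintype.card σ with hN
  have h1 : ∀ (b : List Bk) (p q : σ), Run (Bs st) p b q →
      Chn (fun p q => ∃ x : Bk, Bs st p x q ∧ x.2 < N) b.length p q := by
    intro b
    induction b with
    | nil => intro p q h; exact h
    | cons x b ih =>
      rintro p q ⟨r, h1, h2⟩
      obtain ⟨c', h3, h4⟩ := Bs_short (a := x.1) (c := x.2) h1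
      exact ⟨r, ⟨(x.1, c'), h4, h3⟩, ih r q h2⟩
  have h2 : ∀ (k : ℕ) (p q : σ), Chn (fun p q => ∃ x : Bk, Bs st p x q ∧ x.2 < N) k p q →
      ∃ b', Run (Bs st) p b' q ∧ (enc b').length ≤ k * N := by
    intro k
    induction k with
    | zero => intro p q h; exact ⟨[], h, by simp⟩
    | succ k ih =>
      rintro p q ⟨r, ⟨x, h1, h2⟩, h3⟩
      obtain ⟨b', h4, h5⟩ := ih r q h3
      refine ⟨x :: b', ⟨r, h1, h4⟩, ?_⟩
      rw [enc_cons, List.length_cons, List.length_append, List.length_replicate]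
      have : (k + 1) * N = k * N + N := by ring
      omega
  obtain ⟨k', h3, _, h4⟩ := Pool.Agent.Helper178.Idx.Ch_short _ (h1 b p q h)
  obtain ⟨b', h5, h6⟩ := h2 k' p q h4
  exact ⟨b', h5, h6.trans (Nat.mul_le_mul (by omega) (le_refl _))⟩

/-- Short violations. -/
theorem viol_short {p q : σ} {b : List Bk} (hb : ¬ b.IsChain Rel) (h : Run (Bs st) p b q) :
    ∃ b', ¬ b'.IsChain Rel ∧ Run (Bs st) p b' q ∧
      (enc b').length ≤ 2 * Fintype.card σ ^ 2 + 4 * Fintype.card σ + 2 := by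
  set N := Fintype.card σ with hN
  obtain ⟨b1, ⟨a, c⟩, ⟨a', c'⟩, b2, rfl, hxy⟩ := not_chain hb
  obtain ⟨p1, h1, p2, hx, p3, hy, h2⟩ := (Run_append _ _ _ _).mp h
  obtain ⟨b1', g1, l1⟩ := blocks_short h1
  obtain ⟨b2', g2, l2⟩ := blocks_short h2
  rw [← hN] at l1 l2
  have key : ∃ d d', d ≤ 2 * N ∧ d' ≤ 2 * N ∧ Bs st p1 (a, d) p2 ∧ Bs st p2 (a', d') p3 ∧
      ¬ Rel (a, d) (a', d') := by
    by_cases hc : N ≤ c
    · obtain ⟨c1, c2, hne, k1, k2, k3, k4⟩ := Bs_two hx hc
      obtain ⟨d', k5, k6⟩ := Bs_short hy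
      by_cases hr : Rel (a, c1) (a', d')
      · exact ⟨c2, d', k2, by omega, k4, k6, fun hr' => hne (Rel_inj_left hr hr')⟩
      · exact ⟨c1, d', k1, by omega, k3, k6, hr⟩
    · by_cases hc' : N ≤ c'
      · obtain ⟨c1, c2, hne, k1, k2, k3, k4⟩ := Bs_two hy hc'
        obtain ⟨d, k5, k6⟩ := Bs_short hx
        by_cases hr : Rel (a, d) (a', c1)
        · exact ⟨d, c2, by omega, k2, k6, k4, fun hr' => hne (Rel_inj_right hr hr')⟩
        · exact ⟨d, c1, by omega, k1, k6, k3, hr⟩
      · exact ⟨c, c', by omega, by omega, hx, hy, hxy⟩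
  obtain ⟨d, d', k1, k2, k3, k4, k5⟩ := key
  refine ⟨b1' ++ (a, d) :: (a', d') :: b2', chain_violation k5,
    (Run_append _ _ _ _).mpr ⟨p1, g1, p2, k3, p3, k4, g2⟩, ?_⟩
  simp only [enc_append, enc_cons, List.length_append, List.length_cons, List.length_replicate]
  have : 2 * N ^ 2 = N * N + N * N := by ring
  omega

/-- The bound on the lengths of short chain words. -/
def Bd (N : ℕ) : ℕ → ℕ
  | 0 => N ^ 2 * (2 * N + 2) + N + 1
  | h + 1 => N ^ 2 * (2 * N + 2 + Bd N h) + N + 1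

/-- Short words. -/
def Sh (st : σ → Xa → σ → Prop) (h K : ℕ) : Prop :=
  ∀ (s : List Lt), Ch h s → ∀ (b : List Bk) (p q : σ), b.map Prod.fst = s → Run (Bs st) p b q →
    ∃ b', Ch h (b'.map Prod.fst) ∧ Run (Bs st) p b' q ∧ (enc b').length ≤ K

theorem Ch_step (h K0 : ℕ) (hK : ∀ h', h = h' + 1 → Sh st h' K0) :
    Sh st h (Fintype.card σ ^ 2 * (2 * Fintype.card σ + 2 + K0) + Fintype.card σ + 1) := by
  set N := Fintype.card σ with hN
  let E : ℕ → σ × σ → σ × σ → Prop := fun h s t => ∃ b1 b2 : List Bk,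
    (∀ w, Ch h w → Ch h (b1.map Prod.fst ++ w ++ b2.map Prod.fst)) ∧
    Run (Bs st) s.1 b1 t.1 ∧ Run (Bs st) t.2 b2 s.2 ∧
    (enc b1).length + (enc b2).length ≤ 2 * N + 2 + K0
  have toChain : ∀ (h : ℕ) (s : List Lt), Ch h s → (∀ h', h = h' + 1 → Sh st h' K0) →
      ∀ (b : List Bk) (p q : σ), b.map Prod.fst = s → Run (Bs st) p b q →
      ∃ m p' q' d, Chn (E h) m (p, q) (p', q') ∧ Bs st p' (.H, d) q' := by
    intro h s hs
    induction hs with
    | hash h =>
      intro _ b p q hb hr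
      obtain ⟨d, rfl⟩ := map_single hb
      obtain ⟨r, h1, h2⟩ := hr
      have h2' : r = q := h2
      subst h2'
      exact ⟨0, p, r, d, rfl, h1⟩
    | pair h i w hw ih =>
      intro hK b p q hb hr
      obtain ⟨⟨a, c⟩, b0, rfl, ha, hb0⟩ := List.map_eq_cons_iff.1 hb
      have ha : a = .A i := ha
      subst ha
      obtain ⟨b1, b2, rfl, h1, h2⟩ := List.map_eq_append_iff.1 hb0
      obtain ⟨d, rfl⟩ := map_single h2
      obtain ⟨p1, hp1, hr⟩ := hr
      obtain ⟨q1, hr1, q2, hq, hq2⟩ := (Run_append _ _ _ _).mp hr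
      have hq2 : q2 = q := hq2
      subst hq2
      obtain ⟨m, p', q', d', g1, g2⟩ := ih hK b1 p1 q1 h1 hr1
      obtain ⟨c1, k1, k2⟩ := Bs_short hp1
      obtain ⟨c2, k3, k4⟩ := Bs_short hq
      refine ⟨m + 1, p', q', d', ⟨(p1, q1), ⟨[(.A i, c1)], [(.B i, c2)], ?_, ⟨p1, k2, rfl⟩,
        ⟨q2, k4, rfl⟩, ?_⟩, g1⟩, g2⟩
      · intro w' hw'
        simpa using Ch.pair h i w' hw'
      · simp only [enc_cons, enc_nil, List.length_append, List.length_cons,
          List.length_replicate, List.length_nil]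
        omega
    | left h u w hu hw ih1 ih2 =>
      intro hK b p q hb hr
      obtain ⟨⟨a, c⟩, b0, rfl, ha, hb0⟩ := List.map_eq_cons_iff.1 hb
      have ha : a = .O := ha
      subst ha
      obtain ⟨b1, b2, rfl, h1, h2⟩ := List.map_eq_append_iff.1 hb0
      obtain ⟨⟨a3, d⟩, b3, rfl, ha3, h3⟩ := List.map_eq_cons_iff.1 h2
      have ha3 : a3 = .L := ha3
      subst ha3
      obtain ⟨p1, hp1, hr⟩ := hr
      obtain ⟨p2, hr1, p3, hp3, hr3⟩ := (Run_append _ _ _ _).mp hr
      obtain ⟨m, p', q', d', g1, g2⟩ := ih2 hK b3 p3 q h3 hr3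
      obtain ⟨b1', k5, k6, k7⟩ := hK h rfl u hu b1 p1 p2 h1 hr1
      obtain ⟨c1, k1, k2⟩ := Bs_short hp1
      obtain ⟨c2, k3, k4⟩ := Bs_short hp3
      refine ⟨m + 1, p', q', d', ⟨(p3, q), ⟨(.O, c1) :: (b1' ++ [(.L, c2)]), [], ?_, ?_, rfl, ?_⟩,
        g1⟩, g2⟩
      · intro w' hw'
        simpa using Ch.left h _ w' k5 hw'
      · exact ⟨p1, k2, (Run_append _ _ _ _).mpr ⟨p2, k6, p3, k4, rfl⟩⟩
      · simp only [enc_cons, enc_append, enc_nil, List.length_append, List.length_cons,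
          List.length_replicate, List.length_nil]
        omega
    | right h u w hu hw ih1 ih2 =>
      intro hK b p q hb hr
      obtain ⟨b0, b2, rfl, h0, h2⟩ := List.map_eq_append_iff.1 hb
      obtain ⟨⟨a, c⟩, b3, rfl, ha, h3⟩ := List.map_eq_cons_iff.1 h2
      have ha : a = .O := ha
      subst ha
      obtain ⟨b1, b4, rfl, h1, h4⟩ := List.map_eq_append_iff.1 h3
      obtain ⟨d, rfl⟩ := map_single h4
      obtain ⟨q1, hr0, q2, hq2, hr⟩ := (Run_append _ _ _ _).mp hr
      obtain ⟨q3, hr1, q4, hq4, hq5⟩ := (Run_append _ _ _ _).mp hr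
      have hq5 : q4 = q := hq5
      subst hq5
      obtain ⟨m, p', q', d', g1, g2⟩ := ih2 hK b0 p q1 h0 hr0
      obtain ⟨b1', k5, k6, k7⟩ := hK h rfl u hu b1 q2 q3 h1 hr1
      obtain ⟨c1, k1, k2⟩ := Bs_short hq2
      obtain ⟨c2, k3, k4⟩ := Bs_short hq4
      refine ⟨m + 1, p', q', d', ⟨(p, q1), ⟨[], (.O, c1) :: (b1' ++ [(.L, c2)]), ?_, rfl, ?_, ?_⟩,
        g1⟩, g2⟩
      · intro w' hw'
        simpa using Ch.right h _ w' k5 hw'
      · exact ⟨q2, k2, (Run_append _ _ _ _).mpr ⟨q3, k6, q4, k4, rfl⟩⟩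
      · simp only [enc_cons, enc_append, enc_nil, List.length_append, List.length_cons,
          List.length_replicate, List.length_nil]
        omega
  have ofChain : ∀ (m : ℕ) (s t : σ × σ) (d : ℕ), Chn (E h) m s t → Bs st t.1 (.H, d) t.2 →
      ∃ b', Ch h (b'.map Prod.fst) ∧ Run (Bs st) s.1 b' s.2 ∧
        (enc b').length ≤ m * (2 * N + 2 + K0) + N + 1 := by
    intro m
    induction m with
    | zero =>
      intro s t d hst hd
      have hst : s = t := hst
      subst hst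
      obtain ⟨d', h1, h2⟩ := Bs_short hd
      refine ⟨[(.H, d')], Ch.hash h, ⟨_, h2, rfl⟩, ?_⟩
      simp only [enc_cons, enc_nil, List.length_append, List.length_cons,
        List.length_replicate, List.length_nil]
      omega
    | succ m ihm =>
      rintro s t d ⟨r, ⟨b1, b2, h1, h2, h3, h4⟩, h5⟩ hd
      obtain ⟨b', g1, g2, g3⟩ := ihm r t d h5 hd
      refine ⟨b1 ++ b' ++ b2, ?_, ?_, ?_⟩
      · simpa using h1 _ g1
      · exact (Run_append _ _ _ _).mpr ⟨r.2, (Run_append _ _ _ _).mpr ⟨r.1, h2, g2⟩, h3⟩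
      · simp only [enc_append, List.length_append]
        have : (m + 1) * (2 * N + 2 + K0) = m * (2 * N + 2 + K0) + (2 * N + 2 + K0) := by ring
        omega
  intro s hs b p q hb hr
  obtain ⟨m, p', q', d, h1, h2⟩ := toChain h s hs hK b p q hb hr
  obtain ⟨m', h3, _, h4⟩ := Pool.Agent.Helper178.Idx.Ch_short _ h1
  obtain ⟨b', g1, g2, g3⟩ := ofChain m' _ _ d h4 h2
  refine ⟨b', g1, g2, g3.trans ?_⟩
  rw [Fintype.card_prod, ← pow_two] at h3
  have := Nat.mul_le_mul h3.le (le_refl (2 * N + 2 + K0))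
  rw [← hN] at this
  omega

theorem Ch_short (h : ℕ) : Sh st h (Bd (Fintype.card σ) h) := by
  induction h with
  | zero => exact Ch_step 0 0 (fun h' e => by omega)
  | succ h ih =>
    exact Ch_step (h + 1) (Bd (Fintype.card σ) h) (fun h' e => by
      have : h = h' := by omega
      subst this
      exact ih)

/-- The upper bound. -/
def UB (N : ℕ) : ℕ := 2 * N ^ 2 + 4 * N + 2 + Bd N (Nat.log 2 N + 1)

theorem upper {w : List Xa} (hw : w ∈ Lang) {p q : σ} (hr : Run st p w q) :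
    ∃ w' ∈ Lang, Run st p w' q ∧ w'.length ≤ UB (Fintype.card σ) := by
  set N := Fintype.card σ with hN
  by_cases hV : ∃ b : List Bk, ¬ b.IsChain Rel ∧ Run (Bs st) p b q
  · obtain ⟨b, h1, h2⟩ := hV
    obtain ⟨b', h3, h4, h5⟩ := viol_short h1 h2
    refine ⟨enc b', ⟨b', rfl, Or.inr h3⟩, (Run_enc _ _ _).mpr h4, h5.trans ?_⟩
    unfold UB
    exact Nat.le_add_right _ _
  · push Not at hV
    obtain ⟨b, rfl, hb⟩ := hw
    have hr' := (Run_enc _ _ _).mp hr
    have hC : C (b.map Prod.fst) := by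
      rcases hb with hb | hb
      · exact hb
      · exact absurd hr' (hV b hb)
    have hch : b.IsChain Rel := by
      by_contra h
      exact hV b h hr'
    have hCh : Ch (Nat.log 2 N + 1) (b.map Prod.fst) := by
      by_cases hlen : b.length ≤ 1
      · obtain ⟨a, t, e, _⟩ := C_first hC
        have hb1 : t = [] := by
          have : (b.map Prod.fst).length = t.length + 1 := by rw [e]; rfl
          rw [List.length_map] at this
          exact List.length_eq_zero_iff.1 (by omega)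
        subst hb1
        rw [e] at hC ⊢
        have : a = .H := by
          generalize hs : [a] = s at hC
          cases hC with
          | hash => simpa using hs
          | pair i w hw => simp at hs
          | left u w hu hw => simp at hs
          | right u w hu hw =>
            obtain ⟨a', t', rfl, _⟩ := C_first hw
            simp at hs
        subst this
        exact .hash _
      · have hcodes : ∀ x ∈ b, x.2 < N := by
          intro x hx
          by_contra hlt
          obtain ⟨b1, b2, rfl⟩ := List.append_of_mem hx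
          obtain ⟨p1, h1, p2, h2, h3⟩ := (Run_append _ _ _ _).mp hr'
          obtain ⟨c1, c2, hne, _, _, k3, k4⟩ := Bs_two (a := x.1) (c := x.2) h2 (by omega)
          have e1 : (b1 ++ (x.1, c1) :: b2).IsChain Rel := by
            by_contra h
            exact hV _ h ((Run_append _ _ _ _).mpr ⟨p1, h1, p2, k3, h3⟩)
          have e2 : (b1 ++ (x.1, c2) :: b2).IsChain Rel := by
            by_contra h
            exact hV _ h ((Run_append _ _ _ _).mpr ⟨p1, h1, p2, k4, h3⟩)
          cases b2 with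
          | cons y b2 =>
            rw [List.isChain_append_cons_cons] at e1 e2
            exact hne (Rel_inj_left e1.2.1 e2.2.1)
          | nil =>
            rcases List.eq_nil_or_concat b1 with rfl | ⟨b1', y, rfl⟩
            · simp at hlen
            · rw [List.concat_eq_append, List.append_assoc, List.cons_append, List.nil_append,
                List.isChain_append_cons_cons] at e1 e2
              exact hne (Rel_inj_right e1.2.1 e2.2.1)
        obtain ⟨x, t, rfl⟩ : ∃ x t, b = x :: t := by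
          cases b with
          | nil => simp at hlen
          | cons x t => exact ⟨x, t, rfl⟩
        refine (toLC hC (x :: t) x.2 (Nat.log 2 N + 1) rfl hch hcodes ⟨x.1, t, rfl⟩ ?_).toCh
        calc N ≤ 2 ^ (Nat.log 2 N + 1) := (Nat.lt_pow_succ_log_self (by norm_num) _).le
          _ ≤ (x.2 + 1) * 2 ^ (Nat.log 2 N + 1) := Nat.le_mul_of_pos_left _ (by omega)
    obtain ⟨b', h1, h2, h3⟩ := Ch_short _ _ hCh b p q rfl hr'
    refine ⟨enc b', ⟨b', rfl, Or.inl h1.toC⟩, (Run_enc _ _ _).mpr h2, h3.trans ?_⟩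
    unfold UB
    exact Nat.le_add_left _ _

end

end Pool.Agent.Y552.Qr
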